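import Pool.Agent.H86.MDX.Stmts

namespace Pool.Agent.H86.MDX

variable {d : ℕ}

open MeasureTheory ProbabilityTheory Filter Topology Finset
open scoped BigOperators

theorem Const_finite {ω : Om d Lab} (hω : GoodW ω) (x : V d) (t : ℝ) :
    {s | s ∈ Ring d (ω x) ∧ s < t}.Finite := by
  have hsub : {s | s ∈ Ring d (ω x) ∧ s < t} ⊆
      ⋃ k ∈ Finset.range ⌈bk d * t⌉₊, ⋃ j ∈ Finset.range ((ω x).2 k).1,
        {((k : ℝ) + ((ω x).2 k).2 j) / bk d} := by
    rintro s ⟨⟨k, j, hj, rfl⟩, hs⟩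
    have hp := (hω.pos x k j).1
    have h1 : (k : ℝ) < bk d * t := by
      rw [div_lt_iff₀ (bk_pos _)] at hs
      linarith
    have h2 : k < ⌈bk d * t⌉₊ := Nat.lt_ceil.2 h1
    simp only [Set.mem_iUnion, Finset.mem_range, Set.mem_singleton_iff]
    exact ⟨k, h2, j, hj, rfl⟩
  refine Set.Finite.subset ?_ hsub
  refine Set.Finite.biUnion (Finset.finite_toSet _) fun k _ => ?_
  exact Set.Finite.biUnion (Finset.finite_toSet _) fun j _ => Set.finite_singleton _

theorem taskConst : TaskConst d := by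
  intro p ω v hω hv x
  refine ⟨Const_finite hω x, ?_⟩
  intro s s' hss h
  by_cases he : ∃ r ∈ Ring d (ω x), r < s
  · obtain ⟨r, hr, hrs⟩ := he
    obtain ⟨r0, hr0, hmax⟩ := Set.exists_max_image {s' | s' ∈ Ring d (ω x) ∧ s' < s} (fun y => y)
      (Const_finite hω x s) ⟨r, hr, hrs⟩
    have h1 := (hv x s).2 r0 hr0.1 hr0.2 (fun y hy hys => hmax y ⟨hy, hys⟩)
    have h2 := (hv x s').2 r0 hr0.1 (hr0.2.trans_le hss) (fun y hy hys => by
      rcases h y hy with h3 | h3
      · exact hmax y ⟨hy, h3⟩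
      · exact absurd hys (not_lt.2 h3))
    exact h1.trans h2.symm
  · push Not at he
    have h1 := (hv x s).1 he
    have h2 := (hv x s').1 (fun y hy => by
      rcases h y hy with h3 | h3
      · exact absurd h3 (not_lt.2 (he y hy))
      · exact h3)
    exact h1.trans h2.symm

end Pool.Agent.H86.MDX
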