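import Pool.Agent.H86.MDX.Stmts

namespace Pool.Agent.H86.MDX

variable {d : ℕ}

open Finset

open Classical in
theorem taskDrop_sum (b : Fin d → Prop) :
    ∑ i, sg (b i) = 2 * ({i : Fin d | b i}.ncard : ℝ) - d := by
  have h1 : {i : Fin d | b i}.ncard = (univ.filter b).card := by
    rw [← Set.ncard_coe_finset]
    congr 1
    ext i
    simp
  rw [h1]
  have h2 : ∀ i : Fin d, sg (b i) = 2 * (if b i then (1 : ℝ) else 0) - 1 := by
    intro i
    unfold sg
    by_cases h : b i
    · simp only [h, if_true]; norm_num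
    · simp only [h, if_false]; norm_num
  rw [Finset.sum_congr rfl fun i _ => h2 i, Finset.sum_sub_distrib, ← Finset.mul_sum,
    Finset.sum_boole]
  simp

theorem taskDrop (hd : Odd d) : TaskDrop d := by
  intro v x s h
  obtain ⟨m, hm0⟩ := hd
  rw [← Finset.mul_sum, taskDrop_sum (fun i => v (R i x) s)]
  have hm : maj (fun i => v (R i x) s) ↔ d < 2 * {i : Fin d | v (R i x) s}.ncard := Iff.rfl
  rw [hm] at h
  set k := {i : Fin d | v (R i x) s}.ncard
  by_cases ha : v x s
  · have hk : 2 * k + 1 ≤ d := by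
      by_contra hc
      exact h ⟨fun _ => by omega, fun _ => ha⟩
    have h1 : sg (v x s) = 1 := by unfold sg; rw [if_pos ha]
    have h2 : 2 * (k : ℝ) + 1 ≤ d := by exact_mod_cast hk
    rw [h1]; linarith
  · have hk : d + 1 ≤ 2 * k := by
      by_contra hc
      exact h ⟨fun h' => absurd h' ha, fun h' => absurd h' hc⟩
    have h1 : sg (v x s) = -1 := by unfold sg; rw [if_neg ha]
    have h2 : (d : ℝ) + 1 ≤ 2 * k := by exact_mod_cast hk
    rw [h1]; linarith

end Pool.Agent.H86.MDX
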