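import Pool.Agent.H86.MDX.Stmts

namespace Pool.Agent.H86.MDX

variable {d : ℕ}

open MeasureTheory ProbabilityTheory Filter Topology Finset

theorem taskEnds_unif : ∀ᵐ x ∂unif, 0 < x ∧ x ≤ 1 := by
  have h1 : ∀ᵐ x ∂unif, x ∈ Set.Icc (0 : ℝ) 1 := ae_restrict_mem measurableSet_Icc
  have h2 : ∀ᵐ x ∂unif, x ≠ 0 :=
    ae_restrict_of_ae (Measure.ae_ne volume (0 : ℝ))
  filter_upwards [h1, h2] with x hx hx0
  exact ⟨lt_of_le_of_ne hx.1 (Ne.symm hx0), hx.2⟩

theorem taskEnds_law : ∀ᵐ e ∂(law d), 0 < e.1 ∧ e.1 ≤ 1 := by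
  unfold law
  exact Measure.quasiMeasurePreserving_fst.ae taskEnds_unif

theorem taskEnds_all : ∀ᵐ ω ∂PP d (law d), ∀ x : V d, 0 < (ω x).1 ∧ (ω x).1 ≤ 1 := by
  rw [ae_all_iff]
  intro x
  exact (measurePreserving_eval_infinitePi (fun _ : V d => (law d)) x).quasiMeasurePreserving.ae
    taskEnds_law

theorem taskEnds_maj_true (hd : 0 < d) : maj (fun _ : Fin d => True) := by
  unfold maj
  have : {i : Fin d | True} = Set.univ := by ext; simp
  rw [this, Set.ncard_univ, Nat.card_eq_fintype_card, Fintype.card_fin]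
  omega

theorem taskEnds_maj_false : ¬ maj (fun _ : Fin d => False) := by
  unfold maj
  have : {i : Fin d | False} = ∅ := by ext; simp
  rw [this, Set.ncard_empty]
  omega

theorem taskEnds (hd : 0 < d) (hU : TaskUnique d) (hG : TaskGoodAE d) : TaskEnds d := by
  intro v
  constructor
  · intro hv
    have h : ∀ᵐ ω ∂PP d (law d), ω ∉ Plus v := by
      filter_upwards [hG, taskEnds_all] with ω hω hx
      rintro ⟨T, hT⟩
      have hsol : IsSol 0 ω (fun _ _ => False) := by
        intro x t
        refine ⟨fun _ => ?_, fun s _ _ _ => ?_⟩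
        · simp only [false_iff, not_le]; exact (hx x).1
        · simp only [false_iff]; exact taskEnds_maj_false
      exact (hU 0 ω (v ω) _ hω (hv ω hω) hsol (o d) T).1 (hT T le_rfl)
    have h0 : (PP d (law d)) (Plus v) = 0 := by
      rw [ae_iff] at h
      simpa using h
    simp [Measure.real, h0]
  · intro hv
    have h : ∀ᵐ ω ∂PP d (law d), ω ∈ Plus v := by
      filter_upwards [hG, taskEnds_all] with ω hω hx
      refine ⟨0, fun t _ => ?_⟩
      have hsol : IsSol 1 ω (fun _ _ => True) := by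
        intro x t
        refine ⟨fun _ => ?_, fun s _ _ _ => ?_⟩
        · simp only [true_iff]; exact (hx x).2
        · simp only [true_iff]; exact taskEnds_maj_true hd
      exact (hU 1 ω (v ω) _ hω (hv ω hω) hsol (o d) t).2 trivial
    have h1 : (PP d (law d)) (Plus v) = (PP d (law d)) Set.univ :=
      measure_congr (eventuallyEq_univ.2 h)
    simp [Measure.real, h1]

end Pool.Agent.H86.MDX
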