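import Pool.Agent.H86.MDX.Stmts

set_option autoImplicit false

namespace Pool.Agent.H86.MDX

variable {d : ℕ}

open MeasureTheory ProbabilityTheory Filter Topology Finset
open scoped BigOperators

/-- the ring time of index `(k, j)` -/
noncomputable def taskExist_rg (d : ℕ) (e : Lab) (k j : ℕ) : ℝ := ((k : ℝ) + (e.2 k).2 j) / bk d

lemma taskExist_mem_ring (e : Lab) (s : ℝ) :
    s ∈ Ring d e ↔ ∃ k j : ℕ, j < (e.2 k).1 ∧ s = taskExist_rg d e k j := Iff.rfl

/-- the approximations -/
def taskExist_uu (p : ℝ) (ω : Om d Lab) : ℕ → V d → ℝ → Prop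
  | 0, x, _ => (ω x).1 ≤ p
  | N + 1, x, t => ((∀ k j, j < ((ω x).2 k).1 → t ≤ taskExist_rg d (ω x) k j) ∧ (ω x).1 ≤ p) ∨
      ∃ k j, (j < ((ω x).2 k).1 ∧ taskExist_rg d (ω x) k j < t ∧
        ∀ k' j', j' < ((ω x).2 k').1 → taskExist_rg d (ω x) k' j' < t →
          taskExist_rg d (ω x) k' j' ≤ taskExist_rg d (ω x) k j) ∧
        maj (fun i => taskExist_uu p ω N (R i x) (taskExist_rg d (ω x) k j))

lemma taskExist_fin {ω : Om d Lab} (hω : GoodW ω) (x : V d) (t : ℝ) :
    {s | s ∈ Ring d (ω x) ∧ s < t}.Finite := by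
  have hfin : (⋃ k ∈ {k : ℕ | k < ⌈bk d * t⌉₊}, (fun j => taskExist_rg d (ω x) k j) ''
      {j : ℕ | j < ((ω x).2 k).1}).Finite :=
    Set.Finite.biUnion (Set.finite_lt_nat _) fun k _ => (Set.finite_lt_nat _).image _
  apply hfin.subset
  rintro s ⟨hs, hst⟩
  obtain ⟨k, j, hj, rfl⟩ := (taskExist_mem_ring _ _).mp hs
  simp only [Set.mem_iUnion]
  refine ⟨k, ?_, j, hj, rfl⟩
  have h1 := (hω.pos x k j).1
  have h2 : (k : ℝ) < bk d * t := by
    unfold taskExist_rg at hst
    rw [div_lt_iff₀ (bk_pos _)] at hst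
    linarith
  show k < ⌈bk d * t⌉₊
  exact_mod_cast h2.trans_le (Nat.le_ceil _)

lemma taskExist_last {ω : Om d Lab} (hω : GoodW ω) (x : V d) (t : ℝ) :
    (∀ s ∈ Ring d (ω x), t ≤ s) ∨
      ∃ s ∈ Ring d (ω x), s < t ∧ ∀ s' ∈ Ring d (ω x), s' < t → s' ≤ s := by
  by_cases h : ∀ s ∈ Ring d (ω x), t ≤ s
  · exact Or.inl h
  · right
    push Not at h
    obtain ⟨s0, hs0, hs0t⟩ := h
    obtain ⟨s, hs, hmax⟩ := Set.exists_max_image {s | s ∈ Ring d (ω x) ∧ s < t} id
      (taskExist_fin hω x t) ⟨s0, hs0, hs0t⟩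
    exact ⟨s, hs.1, hs.2, fun s' h1 h2 => hmax s' ⟨h1, h2⟩⟩

/-- the induction principle -/
lemma taskExist_ind {ω : Om d Lab} (hω : GoodW ω) (P : V d → ℝ → Prop)
    (hA : ∀ x t, (∀ s ∈ Ring d (ω x), t ≤ s) → P x t)
    (hB : ∀ x t s, s ∈ Ring d (ω x) → s < t → (∀ s' ∈ Ring d (ω x), s' < t → s' ≤ s) →
      (∀ i, P (R i x) s) → P x t) : ∀ x t, P x t := by
  classical
  have key : ∀ K : ℕ, ∀ x t, t ≤ (K : ℝ) / bk d → P x t := by
    intro K
    induction K with
    | zero =>
      intro x t ht
      apply hA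
      intro s hs
      obtain ⟨k, j, hj, rfl⟩ := (taskExist_mem_ring _ _).mp hs
      have h1 := (hω.pos x k j).1
      have h2 : 0 ≤ taskExist_rg d (ω x) k j := by
        have hb := bk_pos d
        unfold taskExist_rg; positivity
      simp at ht
      linarith
    | succ K ih =>
      intro x t ht
      obtain ⟨B, hxB, hB'⟩ := hω.clu K x
      let F : ℝ → Finset ((_ : V d) × ℕ) := fun t =>
        (B.sigma (fun y => Finset.range ((ω y).2 K).1)).filter
          (fun q => taskExist_rg d (ω q.1) K q.2 < t)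
      have main : ∀ n : ℕ, ∀ t : ℝ, (F t).card = n → ∀ y ∈ B, t ≤ ((K + 1 : ℕ) : ℝ) / bk d → P y t := by
        intro n
        induction n using Nat.strong_induction_on with
        | _ n IH =>
          intro t hn y hy ht
          rcases taskExist_last hω y t with h | ⟨s, hs, hst, hmax⟩
          · exact hA y t h
          · apply hB y t s hs hst hmax
            obtain ⟨k, j, hj, hsk⟩ := (taskExist_mem_ring _ _).mp hs
            have h1 := hω.pos y k j
            have h2 : (k : ℝ) < K + 1 := by
              have h3 : taskExist_rg d (ω y) k j < ((K + 1 : ℕ) : ℝ) / bk d := by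
                rw [← hsk]; linarith
              unfold taskExist_rg at h3
              rw [div_lt_div_iff_of_pos_right (bk_pos _)] at h3
              push_cast at h3
              linarith [h1.1]
            have h3 : k < K + 1 := by exact_mod_cast h2
            intro i
            rcases Nat.lt_or_ge k K with hk | hk
            · apply ih
              rw [hsk]
              unfold taskExist_rg
              rw [div_le_div_iff_of_pos_right (bk_pos _)]
              have h4 : (k : ℝ) + 1 ≤ K := by exact_mod_cast hk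
              linarith [h1.2]
            · have hkK : k = K := by omega
              subst hkK
              have h5 : (F s).card < (F t).card := by
                apply Finset.card_lt_card
                rw [Finset.ssubset_iff_of_subset]
                · refine ⟨⟨y, j⟩, ?_, ?_⟩
                  · simp only [F, Finset.mem_filter, Finset.mem_sigma, Finset.mem_range]
                    exact ⟨⟨hy, hj⟩, by rw [← hsk]; exact hst⟩
                  · simp only [F, Finset.mem_filter, not_and]
                    intro _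
                    rw [← hsk]
                    exact lt_irrefl _
                · intro q hq
                  simp only [F, Finset.mem_filter] at hq ⊢
                  exact ⟨hq.1, hq.2.trans hst⟩
              exact IH _ (hn ▸ h5) s rfl (R i y) (hB' y hy (by omega) i) (by linarith)
      exact main _ t rfl x hxB ht
  intro x t
  apply key ⌈bk d * t⌉₊ x t
  rw [le_div_iff₀ (bk_pos _)]
  have := Nat.le_ceil (bk d * t)
  linarith

lemma taskExist_uu_none {p : ℝ} {ω : Om d Lab} {x : V d} {t : ℝ}
    (h : ∀ s ∈ Ring d (ω x), t ≤ s) (n : ℕ) : taskExist_uu p ω n x t ↔ (ω x).1 ≤ p := by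
  cases n with
  | zero => exact Iff.rfl
  | succ n =>
    unfold taskExist_uu
    constructor
    · rintro (⟨_, h1⟩ | ⟨k, j, ⟨hj, hlt, _⟩, _⟩)
      · exact h1
      · exact absurd hlt (not_lt.mpr (h _ ⟨k, j, hj, rfl⟩))
    · intro h1
      exact Or.inl ⟨fun k j hj => h _ ⟨k, j, hj, rfl⟩, h1⟩

lemma taskExist_uu_last {p : ℝ} {ω : Om d Lab} {x : V d} {t s : ℝ} (hs : s ∈ Ring d (ω x))
    (hst : s < t) (hmax : ∀ s' ∈ Ring d (ω x), s' < t → s' ≤ s) (n : ℕ) :
    taskExist_uu p ω (n + 1) x t ↔ maj (fun i => taskExist_uu p ω n (R i x) s) := by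
  obtain ⟨k, j, hj, hsk⟩ := (taskExist_mem_ring _ _).mp hs
  rw [taskExist_uu]
  constructor
  · rintro (⟨h1, _⟩ | ⟨k', j', ⟨hj', hlt, hm⟩, h2⟩)
    · exact absurd (h1 k j hj) (not_le.mpr (hsk ▸ hst))
    · have h3 : taskExist_rg d (ω x) k' j' = s := by
        apply le_antisymm (hmax _ ⟨k', j', hj', rfl⟩ hlt)
        rw [hsk]
        exact hm k j hj (hsk ▸ hst)
      rw [h3] at h2
      exact h2
  · intro h
    refine Or.inr ⟨k, j, ⟨hj, hsk ▸ hst, fun k' j' hj' hlt => ?_⟩, ?_⟩
    · rw [← hsk]
      exact hmax _ ⟨k', j', hj', rfl⟩ hlt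
    · rw [← hsk]
      exact h

lemma taskExist_ev {a : ℕ → Prop} {b : Prop} (h : ∀ᶠ n in atTop, (a n ↔ b)) :
    (∃ N, ∀ n, N ≤ n → a n) ↔ b := by
  obtain ⟨N, hN⟩ := eventually_atTop.mp h
  constructor
  · rintro ⟨M, hM⟩
    exact (hN (max N M) (le_max_left _ _)).mp (hM _ (le_max_right _ _))
  · intro hb
    exact ⟨N, fun n hn => (hN n hn).mpr hb⟩

lemma taskExist_shift {p : ℝ} {ω : Om d Lab} {x : V d} {t s : ℝ} (hs : s ∈ Ring d (ω x))
    (hst : s < t) (hmax : ∀ s' ∈ Ring d (ω x), s' < t → s' ≤ s) {b : Fin d → Prop}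
    (hb : ∀ i, ∀ᶠ n in atTop, (taskExist_uu p ω n (R i x) s ↔ b i)) :
    ∀ᶠ n in atTop, (taskExist_uu p ω n x t ↔ maj b) := by
  obtain ⟨N, hN⟩ := eventually_atTop.mp (eventually_all.mpr hb)
  rw [eventually_atTop]
  refine ⟨N + 1, fun n hn => ?_⟩
  obtain ⟨m, rfl⟩ : ∃ m, n = m + 1 := ⟨n - 1, by omega⟩
  rw [taskExist_uu_last hs hst hmax]
  have : (fun i => taskExist_uu p ω m (R i x) s) = b := by
    funext i
    exact propext (hN m (by omega) i)
  rw [this]

lemma taskExist_stab (p : ℝ) {ω : Om d Lab} (hω : GoodW ω) : ∀ x t,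
    ∃ b : Prop, ∀ᶠ n in atTop, (taskExist_uu p ω n x t ↔ b) := by
  apply taskExist_ind hω
  · intro x t h
    exact ⟨_, Eventually.of_forall fun n => taskExist_uu_none h n⟩
  · intro x t s hs hst hmax h
    choose b hb using h
    exact ⟨_, taskExist_shift hs hst hmax hb⟩

lemma taskExist_maj {α : Type} [MeasurableSpace α] {b : Fin d → α → Prop}
    (hb : ∀ i, Measurable (b i)) : Measurable (fun a => maj (fun i => b i a)) := by
  have h : (fun a => maj (fun i => b i a)) =
      fun a => ∃ S : Finset (Fin d), d < 2 * S.card ∧ ∀ i : Fin d, i ∈ S → b i a := by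
    funext a
    apply propext
    classical
    unfold maj
    constructor
    · intro h
      refine ⟨Finset.univ.filter (fun i => b i a), ?_, fun i hi => (Finset.mem_filter.mp hi).2⟩
      rw [← Set.ncard_coe_finset]
      simpa using h
    · rintro ⟨S, hS, h⟩
      have h5 : S.card ≤ {i | b i a}.ncard := by
        rw [← Set.ncard_coe_finset]
        exact Set.ncard_le_ncard (fun i hi => h i hi) (Set.toFinite _)
      show d < 2 * {i | b i a}.ncard
      omega
  rw [h]
  refine Measurable.exists fun S => Measurable.and measurable_const ?_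
  exact Measurable.forall fun i => Measurable.imp measurable_const (hb i)

lemma taskExist_meas (p : ℝ) (N : ℕ) : ∀ x : V d,
    Measurable (fun q : Om d Lab × ℝ => taskExist_uu p q.1 N x q.2) := by
  have h1 : ∀ x : V d, Measurable (fun q : Om d Lab × ℝ => q.1 x) :=
    fun x => (measurable_pi_apply x).comp measurable_fst
  have h2 : ∀ (x : V d) (k : ℕ), Measurable (fun q : Om d Lab × ℝ => (q.1 x).2 k) :=
    fun x k => (measurable_pi_apply k).comp (measurable_snd.comp (h1 x))
  have h3 : ∀ (x : V d) (k j : ℕ),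
      Measurable (fun q : Om d Lab × ℝ => taskExist_rg d (q.1 x) k j) :=
    fun x k j => (((measurable_pi_apply j).comp (measurable_snd.comp (h2 x k))).const_add
      (k : ℝ)).div_const (bk d)
  have h4 : ∀ (x : V d) (k j : ℕ),
      Measurable (fun q : Om d Lab × ℝ => j < ((q.1 x).2 k).1) :=
    fun x k j => measurableSet_setOfPred.mp
      (measurableSet_lt measurable_const (measurable_fst.comp (h2 x k)))
  have h5 : ∀ (x : V d), Measurable (fun q : Om d Lab × ℝ => (q.1 x).1 ≤ p) :=
    fun x => measurableSet_setOfPred.mp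
      (measurableSet_le (measurable_fst.comp (h1 x)) measurable_const)
  induction N with
  | zero =>
    intro x
    exact h5 x
  | succ N ih =>
    intro x
    have hle : ∀ k j, Measurable (fun q : Om d Lab × ℝ => q.2 ≤ taskExist_rg d (q.1 x) k j) :=
      fun k j => measurableSet_setOfPred.mp (measurableSet_le measurable_snd (h3 x k j))
    have hlt : ∀ k j, Measurable (fun q : Om d Lab × ℝ => taskExist_rg d (q.1 x) k j < q.2) :=
      fun k j => measurableSet_setOfPred.mp (measurableSet_lt (h3 x k j) measurable_snd)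
    have hcc : ∀ k j k' j', Measurable (fun q : Om d Lab × ℝ =>
        taskExist_rg d (q.1 x) k' j' ≤ taskExist_rg d (q.1 x) k j) :=
      fun k j k' j' => measurableSet_setOfPred.mp (measurableSet_le (h3 x k' j') (h3 x k j))
    show Measurable (fun q : Om d Lab × ℝ =>
      ((∀ k j, j < ((q.1 x).2 k).1 → q.2 ≤ taskExist_rg d (q.1 x) k j) ∧ (q.1 x).1 ≤ p) ∨
      ∃ k j, (j < ((q.1 x).2 k).1 ∧ taskExist_rg d (q.1 x) k j < q.2 ∧
        ∀ k' j', j' < ((q.1 x).2 k').1 → taskExist_rg d (q.1 x) k' j' < q.2 →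
          taskExist_rg d (q.1 x) k' j' ≤ taskExist_rg d (q.1 x) k j) ∧
        maj (fun i => taskExist_uu p q.1 N (R i x) (taskExist_rg d (q.1 x) k j)))
    refine Measurable.or (Measurable.and ?_ (h5 x)) ?_
    · exact Measurable.forall fun k => Measurable.forall fun j =>
        Measurable.imp (h4 x k j) (hle k j)
    · refine Measurable.exists fun k => Measurable.exists fun j => Measurable.and
        (Measurable.and (h4 x k j) (Measurable.and (hlt k j) ?_)) ?_
      · exact Measurable.forall fun k' => Measurable.forall fun j' =>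
          Measurable.imp (h4 x k' j') (Measurable.imp (hlt k' j') (hcc k j k' j'))
      · apply taskExist_maj
        intro i
        exact (ih (R i x)).comp (measurable_fst.prodMk (h3 x k j))

theorem taskExist : TaskExist d := by
  refine ⟨fun p ω x t => ∃ N : ℕ, ∀ n : ℕ, N ≤ n → taskExist_uu p ω n x t, ?_, ?_⟩
  · intro p x t
    rw [measurableSet_setOfPred]
    refine Measurable.exists fun N => Measurable.forall fun n => Measurable.imp measurable_const ?_
    exact (taskExist_meas p n x).comp (measurable_id.prodMk measurable_const)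
  · intro p ω hω x t
    refine ⟨fun h => taskExist_ev (Eventually.of_forall fun n => taskExist_uu_none h n), ?_⟩
    intro s hs hst hmax
    choose b hb using fun i => taskExist_stab p hω (R i x) s
    have h1 : ∀ i, (∃ N : ℕ, ∀ n : ℕ, N ≤ n → taskExist_uu p ω n (R i x) s) = b i :=
      fun i => propext (taskExist_ev (hb i))
    simp only [h1]
    exact taskExist_ev (taskExist_shift hs hst hmax hb)

end Pool.Agent.H86.MDX
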