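import Pool.Agent.H86.MDX.Stmts

set_option autoImplicit false

namespace Pool.Agent.H86.MDX

variable {d : ℕ}

open MeasureTheory

theorem taskGoodAE (h1 : TaskRings d) (h2 : TaskCluster d) : TaskGoodAE d := by
  filter_upwards [h1, h2] with ω hω1 hω2
  exact ⟨hω1.1, hω1.2.1, hω1.2.2, hω2⟩

end Pool.Agent.H86.MDX
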