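import Pool.Agent.H86.MDX.Stmts

set_option autoImplicit false

namespace Pool.Agent.H86.MDX

variable {d : ℕ}

open MeasureTheory ProbabilityTheory Filter Topology

theorem intG_sg_cases (q : Prop) : sg q = 1 ∨ sg q = -1 := by
  unfold sg
  by_cases h : q <;> simp [h]

theorem intG_sg_ae {Ω : Type} [MeasurableSpace Ω] {μ : Measure Ω} {B : Set Ω}
    (hB : NullMeasurableSet B μ) : AEMeasurable (fun ω => sg (ω ∈ B)) μ := by
  have : (fun ω => sg (ω ∈ B)) = fun ω => B.indicator (fun _ => (2 : ℝ)) ω - 1 := by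
    funext ω
    unfold sg
    by_cases h : ω ∈ B
    · simp [h]; norm_num
    · simp [h]
  rw [this]
  exact (aemeasurable_const.indicator₀ hB).sub_const 1

theorem intG_maj {Ω : Type} [MeasurableSpace Ω] {μ : Measure Ω} {A : Fin d → Set Ω}
    (hA : ∀ i, NullMeasurableSet (A i) μ) :
    NullMeasurableSet {ω | maj (fun i => ω ∈ A i)} μ := by
  classical
  have : {ω | maj (fun i => ω ∈ A i)} =
      ⋃ S : Finset (Fin d), ⋃ _ : d < 2 * S.card, ⋂ i : Fin d, ⋂ _ : i ∈ S, A i := by
    ext ω
    simp only [Set.mem_ofPred_eq, maj, Set.mem_iUnion, Set.mem_iInter, exists_prop]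
    constructor
    · intro h
      refine ⟨Finset.univ.filter fun i => ω ∈ A i, ?_, fun i hi => (Finset.mem_filter.1 hi).2⟩
      rw [← Set.ncard_coe_finset]
      simpa using h
    · rintro ⟨S, hS, h⟩
      have h5 : S.card ≤ {i | ω ∈ A i}.ncard := by
        rw [← Set.ncard_coe_finset]
        exact Set.ncard_le_ncard (fun i hi => h i (by simpa using hi)) (Set.toFinite _)
      omega
  rw [this]
  exact NullMeasurableSet.iUnion fun S => NullMeasurableSet.iUnion fun _ =>
    NullMeasurableSet.iInter fun i => NullMeasurableSet.iInter fun _ => hA i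

theorem intG_iff {Ω : Type} [MeasurableSpace Ω] {μ : Measure Ω} {A B : Set Ω}
    (hA : NullMeasurableSet A μ) (hB : NullMeasurableSet B μ) :
    NullMeasurableSet {ω | ¬ (ω ∈ A ↔ ω ∈ B)} μ := by
  have : {ω | ¬ (ω ∈ A ↔ ω ∈ B)} = (A \ B) ∪ (B \ A) := by
    ext ω
    simp only [Set.mem_ofPred_eq, Set.mem_union, Set.mem_sdiff]
    tauto
  rw [this]
  exact (hA.diff hB).union (hB.diff hA)

/-- the ring number `j` in the block `k` -/
noncomputable def intG_tau (x : V d) (p : ℕ × ℕ) (ω : Om d Lab) : ℝ :=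
  ((p.1 : ℝ) + ((ω x).2 p.1).2 p.2) / bk d

theorem intG_tau_meas (x : V d) (p : ℕ × ℕ) : Measurable (intG_tau x p) := by
  unfold intG_tau
  have h1 : Measurable fun ω : Om d Lab => ((ω x).2 p.1).2 p.2 :=
    (measurable_pi_apply p.2).comp (measurable_snd.comp ((measurable_pi_apply p.1).comp
      (measurable_snd.comp (measurable_pi_apply x))))
  exact (h1.const_add _).div_const _

theorem intG_N_meas (x : V d) (k : ℕ) : Measurable fun ω : Om d Lab => ((ω x).2 k).1 :=
  measurable_fst.comp ((measurable_pi_apply k).comp (measurable_snd.comp (measurable_pi_apply x)))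

theorem intG_inj {ω : Om d Lab} (hω : GoodW ω) (x : V d) :
    Function.Injective fun p : ℕ × ℕ => intG_tau x p ω := by
  rintro ⟨k, j⟩ ⟨k', j'⟩ h
  simp only [intG_tau] at h
  have h1 := hω.pos x k j
  have h2 := hω.pos x k' j'
  have h3 : (k : ℝ) + ((ω x).2 k).2 j = (k' : ℝ) + ((ω x).2 k').2 j' := by
    have hb := bk_pos d
    field_simp at h
    linarith
  have hk : k = k' := by
    rcases lt_trichotomy k k' with hlt | heq | hlt
    · have : (k : ℝ) + 1 ≤ k' := by exact_mod_cast hlt
      linarith [h1.2, h2.1]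
    · exact heq
    · have : (k' : ℝ) + 1 ≤ k := by exact_mod_cast hlt
      linarith [h1.1, h2.2]
  subst hk
  have hj : j = j' := by
    by_contra hne
    exact hω.ne x k x j j' (by
      intro he
      simp only [Prod.mk.injEq, true_and] at he
      exact hne he) (by linarith)
  rw [hj]

theorem taskIntG (hm : TaskMeasAt d) (hr : TaskRingInt d) (hc : TaskConst d) (hg : TaskGoodAE d) :
    TaskIntG d := by
  classical
  intro p v hv hsol x y z T
  -- the condition and the value at a ring
  set c : Om d Lab → ℕ × ℕ → Prop := fun ω q => q.2 < ((ω x).2 q.1).1 ∧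
    intG_tau x q ω < (T : ℝ) ∧
    ¬ (v ω x (intG_tau x q ω) ↔ maj (fun i => v ω (R i x) (intG_tau x q ω))) with hcdef
  set G : ℕ → Om d Lab → ℝ := fun J ω =>
    ∑ q ∈ Finset.range (bk d * T) ×ˢ Finset.range J,
      {ω | c ω q}.indicator (fun ω => sg (v ω y (intG_tau x q ω)) * sg (v ω z (intG_tau x q ω))) ω
    with hG
  have hset : ∀ (w : V d) (q : ℕ × ℕ),
      NullMeasurableSet {ω | v ω w (intG_tau x q ω)} (PP d (law d)) := fun w q =>
    hm p v hv hsol w (intG_tau x q) (intG_tau_meas x q)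
  have hGm : ∀ J, AEStronglyMeasurable (G J) (PP d (law d)) := by
    intro J
    refine AEMeasurable.aestronglyMeasurable ?_
    refine Finset.aemeasurable_fun_sum _ fun q _ => ?_
    have h1 : NullMeasurableSet {ω | c ω q} (PP d (law d)) := by
      have e1 : MeasurableSet {ω : Om d Lab | q.2 < ((ω x).2 q.1).1} :=
        measurableSet_lt measurable_const (intG_N_meas x q.1)
      have e2 : MeasurableSet {ω : Om d Lab | intG_tau x q ω < (T : ℝ)} :=
        measurableSet_lt (intG_tau_meas x q) measurable_const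
      have e3 := intG_iff (hset x q) (intG_maj fun i => hset (R i x) q)
      exact e1.nullMeasurableSet.inter (e2.nullMeasurableSet.inter e3)
    exact ((intG_sg_ae (hset y q)).mul (intG_sg_ae (hset z q))).indicator₀ h1
  have hfin : ∀ ω, GoodW ω → ∀ᶠ J in atTop,
      G J ω = ∑ᶠ s ∈ Flip ω (v ω) x T, sg (v ω y s) * sg (v ω z s) := by
    intro ω hω
    filter_upwards [eventually_ge_atTop
      ((Finset.range (bk d * T)).sup fun k => ((ω x).2 k).1)] with J hJ
    set P : Finset (ℕ × ℕ) :=
      (Finset.range (bk d * T) ×ˢ Finset.range J).filter (fun q => c ω q) with hP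
    have hFlip : Flip ω (v ω) x T = ((P.image fun q => intG_tau x q ω : Finset ℝ) : Set ℝ) := by
      ext s
      simp only [Flip, Set.mem_ofPred_eq, Finset.coe_image, Set.mem_image, Finset.mem_coe, hP,
        Finset.mem_filter, Finset.mem_product, Finset.mem_range]
      constructor
      · rintro ⟨⟨k, j, hj, rfl⟩, hs, hfl⟩
        have hpos := hω.pos x k j
        have hk : k < bk d * T := by
          have : (k : ℝ) < bk d * T := by
            have h5 : ((k : ℝ) + ((ω x).2 k).2 j) / bk d < T := hs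
            rw [div_lt_iff₀ (bk_pos _)] at h5
            linarith [hpos.1]
          exact_mod_cast this
        refine ⟨(k, j), ⟨⟨hk, lt_of_lt_of_le hj ?_⟩, hj, hs, hfl⟩, rfl⟩
        exact (Finset.le_sup (f := fun k => ((ω x).2 k).1) (Finset.mem_range.2 hk)).trans hJ
      · rintro ⟨⟨k, j⟩, ⟨-, hj, hs, hfl⟩, rfl⟩
        exact ⟨⟨k, j, hj, rfl⟩, hs, hfl⟩
    rw [hFlip, finsum_mem_coe_finset, Finset.sum_image fun a _ b _ h => intG_inj hω x h, hG, hP,
      Finset.sum_filter]
    refine Finset.sum_congr rfl fun q _ => ?_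
    simp only [Set.indicator_apply, Set.mem_ofPred_eq]
  refine ⟨aestronglyMeasurable_of_tendsto_ae atTop hGm ?_, ?_⟩
  · filter_upwards [hg] with ω hω
    exact tendsto_const_nhds.congr' ((hfin ω hω).mono fun J hJ => hJ.symm)
  · rw [hasFiniteIntegral_iff_enorm]
    refine lt_of_le_of_lt (lintegral_mono_ae ?_) (lt_of_le_of_lt (hr x T) (by simp))
    filter_upwards [hg] with ω hω
    have hfinite : {s | s ∈ Ring d (ω x) ∧ s < (T : ℝ)}.Finite :=
      (hc p ω (v ω) hω (hsol ω hω) x).1 T
    have hsub : Flip ω (v ω) x T ⊆ {s | s ∈ Ring d (ω x) ∧ s < (T : ℝ)} := fun s hs =>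
      ⟨hs.1, hs.2.1⟩
    have hF : (Flip ω (v ω) x T).Finite := hfinite.subset hsub
    have h1 : ‖∑ᶠ s ∈ Flip ω (v ω) x T, sg (v ω y s) * sg (v ω z s)‖ ≤
        ({s | s ∈ Ring d (ω x) ∧ s < (T : ℝ)}.ncard : ℝ) := by
      rw [finsum_mem_eq_finite_toFinset_sum _ hF]
      refine (norm_sum_le _ _).trans ?_
      have h2 : ∑ s ∈ hF.toFinset, ‖sg (v ω y s) * sg (v ω z s)‖ ≤ ∑ s ∈ hF.toFinset, (1 : ℝ) := by
        refine Finset.sum_le_sum fun s _ => ?_
        rcases intG_sg_cases (v ω y s) with h | h <;> rcases intG_sg_cases (v ω z s) with h' | h' <;>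
          simp [h, h']
      refine h2.trans ?_
      rw [Finset.sum_const, nsmul_eq_mul, mul_one, ← Set.ncard_eq_toFinset_card _ hF]
      exact_mod_cast Set.ncard_le_ncard hsub hfinite
    rw [← ofReal_norm]
    refine (ENNReal.ofReal_le_ofReal h1).trans ?_
    rw [ENNReal.ofReal_natCast]

end Pool.Agent.H86.MDX
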