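import Pool.Agent.H86.MDX.Stmts

set_option autoImplicit false

namespace Pool.Agent.H86.MDX

variable {d : ℕ}

theorem taskLR_app {d : ℕ} (j : Fin d) (v : List (Fin d)) (b : Fin d) :
    (preList j (v ++ [b]).reverse).reverse = if b = j then v else v ++ [b, j] := by
  rw [List.reverse_append, List.reverse_singleton, List.singleton_append]
  simp only [preList]
  split_ifs
  · rw [List.reverse_reverse]
  · simp

theorem taskLR_list {d : ℕ} (i j : Fin d) (w : List (Fin d)) :
    preList i (preList j w.reverse).reverse = (preList j (preList i w).reverse).reverse := by
  rcases List.eq_nil_or_concat w with rfl | ⟨v, b, rfl⟩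
  · by_cases h : j = i
    · subst h; simp [preList]
    · have h' : i ≠ j := fun h2 => h h2.symm
      simp [preList, h, h']
  · rw [List.concat_eq_append, taskLR_app]
    cases v with
    | nil =>
      by_cases h1 : b = j <;> by_cases h2 : b = i
      · subst h1; subst h2; simp [preList]
      · subst h1; simp [preList, h2]
      · subst h2; simp [preList, h1]
      · simp [preList, h1, h2]
    | cons a u =>
      have e1 : preList i ((a :: u) ++ [b]) = if a = i then u ++ [b] else (i :: a :: u) ++ [b] := rfl
      rw [e1]
      by_cases h1 : b = j <;> by_cases h2 : a = i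
      · rw [if_pos h1, if_pos h2, taskLR_app, if_pos h1]
        simp [preList, h2]
      · rw [if_pos h1, if_neg h2, taskLR_app, if_pos h1]
        simp [preList, h2]
      · rw [if_neg h1, if_pos h2, taskLR_app, if_neg h1]
        simp [preList, h2]
      · rw [if_neg h1, if_neg h2, taskLR_app, if_neg h1]
        simp [preList, h2]

theorem taskLR : TaskLR := by
  intro d i j x
  exact Subtype.ext (taskLR_list i j x.1)

end Pool.Agent.H86.MDX
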