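import Mathlib

/-!
# Majority dynamics on the `d`-regular tree: definitions

Adapted to a general degree `d` from the library files `Pool.Graph.R_seed8.Q39.MD17` (degree 17).

`V d`: reduced words over `Fin d` (no two consecutive letters equal), the vertices of the `d`-regular
tree; the neighbours of `x` are the `d` words `R i x` (append `i`, or delete the last letter if it is
`i`). `L i x` (prepend `i`, or delete the first letter if it is `i`) is an automorphism of the tree.
`Om d E = V d → E` are the labels, `PP d ν` their product law (labels i.i.d. with law `ν`).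
-/

namespace Pool.Agent.H86.MDX

open MeasureTheory ProbabilityTheory Filter Topology Finset
open scoped BigOperators

/-- The vertices of the `d`-regular tree: words without two equal consecutive letters. -/
def V (d : ℕ) : Type := {w : List (Fin d) // w.IsChain (· ≠ ·)}

instance (d : ℕ) : Countable (V d) := inferInstanceAs (Countable {w : List (Fin d) // w.IsChain (· ≠ ·)})

instance (d : ℕ) : DecidableEq (V d) :=
  inferInstanceAs (DecidableEq {w : List (Fin d) // w.IsChain (· ≠ ·)})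

/-- prepend a letter or cancel it -/
def preList {d : ℕ} (i : Fin d) : List (Fin d) → List (Fin d)
  | [] => [i]
  | j :: w => if j = i then w else i :: j :: w

theorem preList_chain {d : ℕ} (i : Fin d) {w : List (Fin d)} (h : w.IsChain (· ≠ ·)) :
    (preList i w).IsChain (· ≠ ·) := by
  cases w with
  | nil => simp [preList]
  | cons j w =>
    show (if j = i then w else i :: j :: w).IsChain _
    split_ifs with hj
    · exact h.tail
    · exact List.IsChain.cons_cons (Ne.symm hj) h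

/-- left multiplication: prepend `i`, or delete the first letter if it is `i` -/
def L {d : ℕ} (i : Fin d) (x : V d) : V d := ⟨preList i x.1, preList_chain i x.2⟩

/-- right multiplication: append `i`, or delete the last letter if it is `i`; the neighbours of `x`
in the tree are the words `R i x` -/
def R {d : ℕ} (i : Fin d) (x : V d) : V d :=
  ⟨(preList i x.1.reverse).reverse, by
    have h : x.1.reverse.IsChain (· ≠ ·) := by
      rw [List.isChain_reverse]
      exact x.2.imp fun _ _ h => Ne.symm h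
    have h2 := preList_chain i h
    rw [List.isChain_reverse]
    exact h2.imp fun _ _ h => Ne.symm h⟩

/-- the root -/
def o (d : ℕ) : V d := ⟨[], List.IsChain.nil⟩

/-- the distance to the root -/
def len {d : ℕ} (x : V d) : ℕ := x.1.length

/-- labellings of the vertices -/
abbrev Om (d : ℕ) (E : Type) : Type := V d → E

/-- the labels are i.i.d. with law `ν` -/
noncomputable def PP (d : ℕ) {E : Type} [MeasurableSpace E] (ν : Measure E) : Measure (Om d E) :=
  Measure.infinitePi (fun _ : V d => ν)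

instance (d : ℕ) {E : Type} [MeasurableSpace E] (ν : Measure E) [IsProbabilityMeasure ν] :
    IsProbabilityMeasure (PP d ν) := by
  unfold PP
  infer_instance

/-- the action of the automorphism `L i` on labellings -/
def act {d : ℕ} {E : Type} (i : Fin d) (ω : Om d E) : Om d E := fun x => ω (L i x)

/-- `f` depends only on the labels in `B` -/
def Dep {d : ℕ} {E : Type} (B : Finset (V d)) (f : Om d E → ℝ) : Prop :=
  ∀ ω ω' : Om d E, (∀ x ∈ B, ω x = ω' x) → f ω = f ω'

/-- T1 -/
def TaskInvol : Prop := ∀ (d : ℕ) (i : Fin d) (x : V d), L i (L i x) = x ∧ R i (R i x) = x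

/-- T2: left and right multiplications commute -/
def TaskLR : Prop := ∀ (d : ℕ) (i j : Fin d) (x : V d), L i (R j x) = R j (L i x)

/-- S1: the action preserves the measure (reindexing of `infinitePi` by an involution) -/
def TaskPres : Prop := ∀ (d : ℕ) (E : Type) [MeasurableSpace E] (ν : Measure E)
  [IsProbabilityMeasure ν] (i : Fin d), MeasurePreserving (act i) (PP d ν) (PP d ν)

/-! ### The dynamics -/

/-- the number of time blocks in a unit of time -/
def bk (d : ℕ) : ℕ := 2 * d + 1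

theorem bk_pos (d : ℕ) : (0 : ℝ) < bk d := by
  unfold bk
  positivity

/-- A label: `e.1` uniform in `[0, 1]` (the initial spin is `+` iff `e.1 ≤ p`), and for every block
`k` a number `(e.2 k).1` of rings in `[k/b, (k+1)/b]`, `b = bk d = 2 d + 1`, and the positions
`(e.2 k).2 j` in `[0, 1]` -/
abbrev Lab : Type := ℝ × (ℕ → ℕ × (ℕ → ℝ))

/-- the uniform law on `[0, 1]` -/
noncomputable def unif : Measure ℝ := volume.restrict (Set.Icc 0 1)

/-- The law of a label: uniform initial label; in each block a Poisson(1/b) number of rings at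
independent uniform places: the rings form a Poisson process of rate one on `[0, ∞)`. -/
noncomputable def law (d : ℕ) : Measure Lab :=
  unif.prod (Measure.infinitePi (fun _ : ℕ =>
    (poissonMeasure (1 / bk d)).prod (Measure.infinitePi (fun _ : ℕ => unif))))

instance : IsProbabilityMeasure unif := ⟨by simp [unif]⟩

instance (d : ℕ) : IsProbabilityMeasure (law d) := by
  unfold law
  infer_instance

/-- the ring times -/
def Ring (d : ℕ) (e : Lab) : Set ℝ := {t | ∃ k j : ℕ, j < (e.2 k).1 ∧ t = ((k : ℝ) + (e.2 k).2 j) / bk d}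

/-- strict majority of `d` spins -/
def maj {d : ℕ} (b : Fin d → Prop) : Prop := d < 2 * {i : Fin d | b i}.ncard

/-- `v x t` says that the spin at `x` just before time `t` is `+`. Rules: without a ring before `t`
it is the initial spin; if `s < t` is the last ring of `x` before `t` then it is the majority of the
spins of the neighbours `R i x` just before `s`. -/
def IsSol {d : ℕ} (p : ℝ) (ω : Om d Lab) (v : V d → ℝ → Prop) : Prop :=
  ∀ (x : V d) (t : ℝ),
    ((∀ s ∈ Ring d (ω x), t ≤ s) → (v x t ↔ (ω x).1 ≤ p)) ∧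
    (∀ s ∈ Ring d (ω x), s < t → (∀ s' ∈ Ring d (ω x), s' < t → s' ≤ s) →
      (v x t ↔ maj (fun i => v (R i x) s)))

/-- D1: the rings are in their blocks, at most one vertex rings at a time, infinitely many rings at
each vertex -/
def TaskRings (d : ℕ) : Prop := ∀ᵐ ω ∂PP d (law d),
  (∀ x k j, 0 < ((ω x).2 k).2 j ∧ ((ω x).2 k).2 j < 1) ∧
  (∀ x k m, ∀ j j', (x, k, j) ≠ ((m, k, j') : V d × ℕ × ℕ) →
    ((ω x).2 k).2 j ≠ ((ω m).2 k).2 j') ∧
  (∀ (x : V d) (n : ℕ), ∃ k, n ≤ k ∧ 1 ≤ ((ω x).2 k).1)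

/-- D2: in every block the vertices that ring form finite clusters: `P(N ≥ 1) ≤ 1/b`, and a vertex
at distance `n` of `x` is reached only if the `n` vertices before it on the path ring:
`d^n * (1/b)^n → 0`, `b = 2 d + 1` -/
def TaskCluster (d : ℕ) : Prop := ∀ᵐ ω ∂PP d (law d), ∀ (k : ℕ) (x : V d), ∃ B : Finset (V d), x ∈ B ∧
  ∀ y ∈ B, 1 ≤ ((ω y).2 k).1 → ∀ i, R i y ∈ B

/-- a good labelling -/
structure GoodW {d : ℕ} (ω : Om d Lab) : Prop where
  pos : ∀ x k j, 0 < ((ω x).2 k).2 j ∧ ((ω x).2 k).2 j < 1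
  ne : ∀ x k m, ∀ j j', (x, k, j) ≠ ((m, k, j') : V d × ℕ × ℕ) →
    ((ω x).2 k).2 j ≠ ((ω m).2 k).2 j'
  inf : ∀ (x : V d) (n : ℕ), ∃ k, n ≤ k ∧ 1 ≤ ((ω x).2 k).1
  clu : ∀ (k : ℕ) (x : V d), ∃ B : Finset (V d), x ∈ B ∧
    ∀ y ∈ B, 1 ≤ ((ω y).2 k).1 → ∀ i, R i y ∈ B

/-- D3: uniqueness (induction on the block; inside a block on the number of rings of the finite set
`B` before `t`) -/
def TaskUnique (d : ℕ) : Prop := ∀ (p : ℝ) (ω : Om d Lab) (v v' : V d → ℝ → Prop), GoodW ω →
  IsSol p ω v → IsSol p ω v' → ∀ x t, v x t ↔ v' x t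

/-- D4: existence of a measurable solution. Define `u 0 x t ↔ (ω x).1 ≤ p`,
`u (N+1) x t ↔ maj (u N (R i x) s)` with `s` the last ring before `t` (initial spin if there is
none), `v x t ↔ ∃ N, ∀ n ≥ N, u n x t`; on `GoodW ω` the depth is finite. -/
def TaskExist (d : ℕ) : Prop := ∃ v : ℝ → Om d Lab → V d → ℝ → Prop,
  (∀ p x t, MeasurableSet {ω | v p ω x t}) ∧ ∀ p ω, GoodW ω → IsSol p ω (v p ω)

/-- D5: `v x` is constant on `(s, s']` if there is no ring of `x` in `[s, s')`, only finitely many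
rings before each time -/
def TaskConst (d : ℕ) : Prop := ∀ (p : ℝ) (ω : Om d Lab) (v : V d → ℝ → Prop), GoodW ω →
  IsSol p ω v → ∀ x : V d, (∀ t : ℝ, {s | s ∈ Ring d (ω x) ∧ s < t}.Finite) ∧
    ∀ s s' : ℝ, s ≤ s' → (∀ r ∈ Ring d (ω x), r < s ∨ s' ≤ r) → (v x s ↔ v x s')

/-- `±1` -/
noncomputable def sg (q : Prop) : ℝ := by classical exact if q then 1 else -1

/-- the rings of `x` before `t` at which the spin of `x` changes -/
def Flip {d : ℕ} (ω : Om d Lab) (v : V d → ℝ → Prop) (x : V d) (t : ℝ) : Set ℝ :=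
  {s | s ∈ Ring d (ω x) ∧ s < t ∧ ¬ (v x s ↔ maj (fun i => v (R i x) s))}

/-- E1: the energy of the edge `{x, y}`, `y = R i x`, between time `0` and time `t` (deterministic;
the rings of `x` and `y` before `t` are finitely many and distinct) -/
def TaskEdge (d : ℕ) : Prop := ∀ (p : ℝ) (ω : Om d Lab) (v : V d → ℝ → Prop), GoodW ω →
  IsSol p ω v → ∀ (x : V d) (i : Fin d) (t : ℝ), 0 ≤ t →
  sg (v x t) * sg (v (R i x) t) - sg (v x 0) * sg (v (R i x) 0) =
    -2 * (∑ᶠ s ∈ Flip ω v x t, sg (v x s) * sg (v (R i x) s)) -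
    2 * (∑ᶠ s ∈ Flip ω v (R i x) t, sg (v x s) * sg (v (R i x) s))

/-- E2: at a flip of `x` the sum over the neighbours is at most `-1` -/
def TaskDrop (d : ℕ) : Prop := ∀ (v : V d → ℝ → Prop) (x : V d) (s : ℝ),
  ¬ (v x s ↔ maj (fun i => v (R i x) s)) → ∑ i, sg (v x s) * sg (v (R i x) s) ≤ -1

/-- E2a (from D5): the spin at a random time. By left continuity it is the limit of the spins at the
times `(⌈nτ⌉ - 1)/n`, which take countably many values. -/
def TaskMeasAt (d : ℕ) : Prop := ∀ (p : ℝ) (v : Om d Lab → V d → ℝ → Prop),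
  (∀ x t, MeasurableSet {ω | v ω x t}) → (∀ ω, GoodW ω → IsSol p ω (v ω)) →
  ∀ (x : V d) (τ : Om d Lab → ℝ), Measurable τ →
    NullMeasurableSet {ω | v ω x (τ ω)} (PP d (law d))

/-- E2b: mean number of rings (`b T` blocks with mean `1/b`) -/
def TaskRingInt (d : ℕ) : Prop := ∀ (x : V d) (T : ℕ),
  ∫⁻ ω, (({s | s ∈ Ring d (ω x) ∧ s < (T : ℝ)}.ncard : ℕ) : ENNReal) ∂PP d (law d) ≤ T

/-- E2c (from E2a, E2b, D5): integrability. Write the sum over the rings `((k + u_j)/b)`, `k < b T`,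
`j < N_k`. -/
def TaskIntG (d : ℕ) : Prop := ∀ (p : ℝ) (v : Om d Lab → V d → ℝ → Prop),
  (∀ x t, MeasurableSet {ω | v ω x t}) → (∀ ω, GoodW ω → IsSol p ω (v ω)) →
  ∀ (x y z : V d) (T : ℕ),
    Integrable (fun ω => ∑ᶠ s ∈ Flip ω (v ω) x T, sg (v ω y s) * sg (v ω z s)) (PP d (law d))

/-- E2d (from S1, D3, T2): `v (act i ω) x t ↔ v ω (L i x) t` for a good `ω` (uniqueness; `act i ω` is
good), hence the two sums of E1 at the root have the same mean -/
def TaskSwap (d : ℕ) : Prop := ∀ (p : ℝ) (v : Om d Lab → V d → ℝ → Prop),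
  (∀ x t, MeasurableSet {ω | v ω x t}) → (∀ ω, GoodW ω → IsSol p ω (v ω)) →
  (∀ ω, GoodW ω → ∀ i x t, v (act i ω) x t ↔ v ω (L i x) t) ∧
  ∀ (i : Fin d) (T : ℕ),
    ∫ ω, ∑ᶠ s ∈ Flip ω (v ω) (R i (o d)) T, sg (v ω (o d) s) * sg (v ω (R i (o d)) s) ∂PP d (law d)
    = ∫ ω, ∑ᶠ s ∈ Flip ω (v ω) (o d) T, sg (v ω (o d) s) * sg (v ω (R i (o d)) s) ∂PP d (law d)

/-- E3: mean number of flips (from F0, E1, E2, D5, E2c, E2d: integrate E1 at `x = o` and sum over `i`:
`-4 E ∑_i G_i = ∑_i E[..] ≤ 2 d`, and the number of flips is at most `- ∑_i G_i`) -/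
def TaskMeanFlips (d : ℕ) : Prop := ∀ (p : ℝ) (v : Om d Lab → V d → ℝ → Prop),
  (∀ x t, MeasurableSet {ω | v ω x t}) → (∀ ω, GoodW ω → IsSol p ω (v ω)) → ∀ T : ℕ,
  ∫⁻ ω, ((Flip ω (v ω) (o d) T).ncard : ENNReal) ∂PP d (law d) ≤ d

/-- E4 (from E3): fixation -/
def TaskFix (d : ℕ) : Prop := ∀ (p : ℝ) (v : Om d Lab → V d → ℝ → Prop),
  (∀ x t, MeasurableSet {ω | v ω x t}) → (∀ ω, GoodW ω → IsSol p ω (v ω)) →
  ∀ᵐ ω ∂PP d (law d), ∀ x : V d, ∃ T : ℝ, ∀ t, T ≤ t → (v ω x t ↔ v ω x T)

/-- F0: a.e. labelling is good (from D1, D2) -/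
def TaskGoodAE (d : ℕ) : Prop := ∀ᵐ ω ∂PP d (law d), GoodW ω

/-- the event that the spin of the root is finally `+` -/
def Plus {d : ℕ} (v : Om d Lab → V d → ℝ → Prop) : Set (Om d Lab) :=
  {ω | ∃ T : ℝ, ∀ t, T ≤ t → v ω (o d) t}

/-- F1: the event is measurable up to null sets (left continuity D5: rational times suffice) -/
def TaskPlusMeas (d : ℕ) : Prop := ∀ (p : ℝ) (v : Om d Lab → V d → ℝ → Prop),
  (∀ x t, MeasurableSet {ω | v ω x t}) → (∀ ω, GoodW ω → IsSol p ω (v ω)) →
  NullMeasurableSet (Plus v) (PP d (law d))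

/-- F2 (from E4, D1, D3, F0): if the root is finally `+` then so are most neighbours, and
`act i ω ∈ Plus v` iff the neighbour `R i o = L i o` is finally `+` -/
def TaskNine (d : ℕ) : Prop := ∀ (p : ℝ) (v : Om d Lab → V d → ℝ → Prop),
  (∀ x t, MeasurableSet {ω | v ω x t}) → (∀ ω, GoodW ω → IsSol p ω (v ω)) →
  ∀ᵐ ω ∂PP d (law d), ω ∈ Plus v → d < 2 * {i : Fin d | act i ω ∈ Plus v}.ncard

/-- F3: `θ(0) = 0` and `θ(1) = 1` (constant solutions and uniqueness) -/
def TaskEnds (d : ℕ) : Prop := ∀ (v : Om d Lab → V d → ℝ → Prop),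
  ((∀ ω, GoodW ω → IsSol 0 ω (v ω)) → (PP d (law d)).real (Plus v) = 0) ∧
  ((∀ ω, GoodW ω → IsSol 1 ω (v ω)) → (PP d (law d)).real (Plus v) = 1)

end Pool.Agent.H86.MDX
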