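import Mathlib
import Pool.Agent.H86.MDX.Stmts

/-! # Task F2 of the blueprint -/

namespace Pool.Agent.H86.MDX

variable {d : ℕ}

open MeasureTheory ProbabilityTheory Filter Topology Finset
open scoped BigOperators

theorem nine_LR (i : Fin d) : L i (o d) = R i (o d) := rfl

theorem taskNine (hConst : TaskConst d) (hGood : TaskGoodAE d) (hSwap : TaskSwap d) (hFix : TaskFix d) :
    TaskNine d := by
  intro p v hmeas hsol
  filter_upwards [hGood, hFix p v hmeas hsol] with ω hg hfix hplus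
  obtain ⟨hsw, -⟩ := hSwap p v hmeas hsol
  obtain ⟨T0, hT0⟩ := hplus
  choose T hT using fun i => hfix (R i (o d))
  obtain ⟨M, hM0, hM1, hM⟩ : ∃ M : ℝ, 0 ≤ M ∧ T0 ≤ M ∧ ∀ i, T i ≤ M := by
    refine ⟨|T0| + ∑ i, |T i|, by positivity, ?_, fun i => ?_⟩
    · have h1 := le_abs_self T0
      have h2 : 0 ≤ ∑ i, |T i| := Finset.sum_nonneg fun i _ => abs_nonneg _
      linarith
    · have h1 := le_abs_self (T i)
      have h2 : |T i| ≤ ∑ i, |T i| :=
        Finset.single_le_sum (f := fun i => |T i|) (fun i _ => abs_nonneg _) (Finset.mem_univ i)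
      have h3 := abs_nonneg T0
      linarith
  obtain ⟨s, hs, hMs⟩ : ∃ s ∈ Ring d (ω (o d)), M ≤ s := by
    obtain ⟨k, hk, hk1⟩ := hg.inf (o d) ⌈bk d * M⌉₊
    refine ⟨((k : ℝ) + ((ω (o d)).2 k).2 0) / bk d, ⟨k, 0, by omega, rfl⟩, ?_⟩
    have h1 := (hg.pos (o d) k 0).1
    have h2 : bk d * M ≤ (k : ℝ) := (Nat.le_ceil _).trans (by exact_mod_cast hk)
    rw [le_div_iff₀ (bk_pos _)]
    linarith
  obtain ⟨t, hst, ht⟩ : ∃ t, s < t ∧ ∀ s' ∈ Ring d (ω (o d)), s' < t → s' ≤ s := by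
    have hfin := (hConst p ω (v ω) hg (hsol ω hg) (o d)).1 (s + 1)
    have hfin2 : (insert (s + 1) {s' | (s' ∈ Ring d (ω (o d)) ∧ s' < s + 1) ∧ s < s'}).Finite :=
      (hfin.subset (fun x hx => hx.1)).insert _
    obtain ⟨t, htm, hmin⟩ := Set.exists_min_image _ (fun x : ℝ => x) hfin2 ⟨s + 1, Set.mem_insert _ _⟩
    refine ⟨t, ?_, fun s' hs' hlt => ?_⟩
    · rcases htm with h | h
      · rw [h]; linarith
      · exact h.2
    · by_contra hc
      push Not at hc
      have h1 : t ≤ s + 1 := hmin (s + 1) (Set.mem_insert _ _)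
      have h2 := hmin s' (Set.mem_insert_of_mem _ ⟨⟨hs', by linarith⟩, hc⟩)
      linarith
  have h1 := ((hsol ω hg) (o d) t).2 s hs hst ht
  have h2 : maj (fun i => v ω (R i (o d)) s) := h1.1 (hT0 t (by linarith))
  have h2' : d < 2 * {i : Fin d | v ω (R i (o d)) s}.ncard := h2
  suffices h6 : {i : Fin d | v ω (R i (o d)) s}.ncard ≤ {i : Fin d | act i ω ∈ Plus (v)}.ncard by
    omega
  refine Set.ncard_le_ncard ?_ (Set.toFinite _)
  intro i hi
  refine ⟨M, fun t' ht' => ?_⟩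
  rw [hsw ω hg i (o d) t', nine_LR]
  exact ((hT i t' ((hM i).trans ht')).trans (hT i s ((hM i).trans hMs)).symm).2 hi

end Pool.Agent.H86.MDX
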