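import Pool.Agent.H86.MDX.Stmts

set_option autoImplicit false

namespace Pool.Agent.H86.MDX

variable {d : ℕ}

open MeasureTheory ProbabilityTheory Filter Topology
open scoped ENNReal

theorem taskRings_diag : ∀ᵐ p ∂(unif.prod unif), p.1 ≠ p.2 := by
  have : NullSingletonClass unif := by unfold unif; infer_instance
  rw [ae_iff]
  have hm : MeasurableSet {p : ℝ × ℝ | ¬ p.1 ≠ p.2} := by
    simp only [ne_eq, not_not]
    exact measurableSet_eq_fun measurable_fst measurable_snd
  rw [Measure.measure_prod_null hm]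
  refine Filter.Eventually.of_forall fun x => ?_
  have h1 : Prod.mk x ⁻¹' {p : ℝ × ℝ | ¬ p.1 ≠ p.2} = {x} := by
    ext y
    simp [eq_comm]
  simp only [h1, Pi.zero_apply]
  exact measure_singleton x

theorem taskRings_ne {ι E : Type} [MeasurableSpace E] (μ : Measure E) [IsProbabilityMeasure μ]
    (X Y : E → ℝ) (hX : MeasurePreserving X μ unif) (hY : MeasurePreserving Y μ unif) (i j : ι)
    (hij : i ≠ j) : ∀ᵐ ω ∂Measure.infinitePi (fun _ : ι => μ), X (ω i) ≠ Y (ω j) := by
  have hmp : MeasurePreserving (fun ω : ι → E => (ω i, ω j))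
      (Measure.infinitePi (fun _ : ι => μ)) (μ.prod μ) :=
    ⟨by fun_prop, Measure.infinitePi_map_eval_prod hij⟩
  have hmp2 : MeasurePreserving (Prod.map X Y) (μ.prod μ) (unif.prod unif) := hX.prod hY
  exact (hmp2.comp hmp).quasiMeasurePreserving.ae taskRings_diag

theorem taskRings_unif : ∀ᵐ u ∂unif, 0 < u ∧ u < 1 := by
  have : NullSingletonClass unif := by unfold unif; infer_instance
  have h0 : ∀ᵐ u ∂unif, u ≠ 0 := by
    rw [ae_iff]
    simp
  have h1 : ∀ᵐ u ∂unif, u ≠ 1 := by
    rw [ae_iff]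
    simp
  have h2 : ∀ᵐ u ∂unif, u ∈ Set.Icc (0 : ℝ) 1 := ae_restrict_mem measurableSet_Icc
  filter_upwards [h0, h1, h2] with u hu0 hu1 hu2
  exact ⟨lt_of_le_of_ne hu2.1 (Ne.symm hu0), lt_of_le_of_ne hu2.2 hu1⟩

/-- the law of a block -/
noncomputable abbrev taskRings_bl (d : ℕ) : Measure (ℕ × (ℕ → ℝ)) :=
  (poissonMeasure (1 / bk d)).prod (Measure.infinitePi (fun _ : ℕ => unif))

theorem taskRings_mpx (x : V d) : MeasurePreserving (fun ω : Om d Lab => (ω x).2) (PP d (law d))
    (Measure.infinitePi (fun _ : ℕ => taskRings_bl d)) := by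
  have h1 : MeasurePreserving (Function.eval x) (PP d (law d)) (law d) :=
    measurePreserving_eval_infinitePi (fun _ : V d => (law d)) x
  have h2 : MeasurePreserving (Prod.snd : Lab → _) (law d)
      (Measure.infinitePi (fun _ : ℕ => taskRings_bl d)) := by
    unfold law
    exact measurePreserving_snd
  exact h2.comp h1

theorem taskRings_mpb (d k : ℕ) : MeasurePreserving (fun f : ℕ → ℕ × (ℕ → ℝ) => (f k).2)
    (Measure.infinitePi (fun _ : ℕ => taskRings_bl d)) (Measure.infinitePi (fun _ : ℕ => unif)) := by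
  have h1 : MeasurePreserving (Function.eval k) (Measure.infinitePi (fun _ : ℕ => taskRings_bl d))
      (taskRings_bl d) := measurePreserving_eval_infinitePi (fun _ : ℕ => taskRings_bl d) k
  have h2 : MeasurePreserving (Prod.snd : ℕ × (ℕ → ℝ) → _) (taskRings_bl d)
      (Measure.infinitePi (fun _ : ℕ => unif)) := measurePreserving_snd
  exact h2.comp h1

theorem taskRings_mpj (j : ℕ) : MeasurePreserving (fun f : ℕ → ℝ => f j)
    (Measure.infinitePi (fun _ : ℕ => unif)) unif :=
  measurePreserving_eval_infinitePi (fun _ : ℕ => unif) j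

theorem taskRings_lab (k j : ℕ) : MeasurePreserving (fun e : Lab => (e.2 k).2 j) (law d) unif := by
  have h2 : MeasurePreserving (Prod.snd : Lab → _) (law d)
      (Measure.infinitePi (fun _ : ℕ => taskRings_bl d)) := by
    unfold law
    exact measurePreserving_snd
  exact (taskRings_mpj j).comp ((taskRings_mpb d k).comp h2)

theorem taskRings_inf (d n : ℕ) : ∀ᵐ f ∂(Measure.infinitePi (fun _ : ℕ => taskRings_bl d)),
    ∃ k, n ≤ k ∧ 1 ≤ (f k).1 := by
  rw [ae_iff]
  set a : ℝ≥0∞ := taskRings_bl d {q | q.1 = 0} with ha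
  have hm : MeasurableSet {q : ℕ × (ℕ → ℝ) | q.1 = 0} :=
    measurable_fst (measurableSet_singleton 0)
  have ha1 : a < 1 := by
    have h1 : {q : ℕ × (ℕ → ℝ) | q.1 = 0} = ({0} : Set ℕ) ×ˢ (Set.univ : Set (ℕ → ℝ)) := by
      ext q
      simp
    rw [ha, h1, Measure.prod_prod, measure_univ, mul_one, poissonMeasure_singleton,
      ENNReal.ofReal_lt_one]
    simp
    unfold bk
    omega
  have key : ∀ M : ℕ, Measure.infinitePi (fun _ : ℕ => taskRings_bl d)
      {f | ¬ ∃ k, n ≤ k ∧ 1 ≤ (f k).1} ≤ a ^ M := by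
    intro M
    have h1 : {f : ℕ → ℕ × (ℕ → ℝ) | ¬ ∃ k, n ≤ k ∧ 1 ≤ (f k).1} ⊆
        Set.pi ((Finset.Ico n (n + M) : Finset ℕ) : Set ℕ) (fun _ => {q | q.1 = 0}) := by
      intro f hf k hk
      simp only [Finset.coe_Ico, Set.mem_Ico] at hk
      simp only [Set.mem_ofPred_eq, not_exists, not_and, not_le] at hf ⊢
      have := hf k hk.1
      omega
    refine (measure_mono h1).trans ?_
    rw [Measure.infinitePi_pi _ (fun _ _ => hm)]
    simp [ha]
  have hlim := ENNReal.tendsto_pow_atTop_nhds_zero_of_lt_one ha1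
  exact le_antisymm (ge_of_tendsto' hlim key) zero_le

theorem taskRings : TaskRings d := by
  unfold TaskRings
  refine Filter.Eventually.and ?_ (Filter.Eventually.and ?_ ?_)
  · simp only [ae_all_iff]
    intro x k j
    exact ((taskRings_mpj j).comp ((taskRings_mpb d k).comp
      (taskRings_mpx x))).quasiMeasurePreserving.ae taskRings_unif
  · simp only [ae_all_iff]
    intro x k m j j'
    intro hne
    by_cases hxm : x = m
    · subst hxm
      have hj : j ≠ j' := fun h => hne (by rw [h])
      have h1 := taskRings_ne unif id id (MeasurePreserving.id _) (MeasurePreserving.id _) j j' hj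
      exact ((taskRings_mpb d k).comp (taskRings_mpx x)).quasiMeasurePreserving.ae h1
    · exact taskRings_ne (law d) (fun e => (e.2 k).2 j) (fun e => (e.2 k).2 j') (taskRings_lab k j)
        (taskRings_lab k j') x m hxm
  · simp only [ae_all_iff]
    intro x n
    exact (taskRings_mpx x).quasiMeasurePreserving.ae (taskRings_inf d n)

end Pool.Agent.H86.MDX
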