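import Pool.Agent.H86.MDX.TaskInvol
import Pool.Agent.H86.MDX.TaskLR
import Pool.Agent.H86.MDX.TaskPres
import Pool.Agent.H86.MDX.TaskRings
import Pool.Agent.H86.MDX.TaskCluster
import Pool.Agent.H86.MDX.TaskUnique
import Pool.Agent.H86.MDX.TaskExist
import Pool.Agent.H86.MDX.TaskConst
import Pool.Agent.H86.MDX.TaskEdge
import Pool.Agent.H86.MDX.TaskDrop
import Pool.Agent.H86.MDX.TaskMeasAt
import Pool.Agent.H86.MDX.TaskRingInt
import Pool.Agent.H86.MDX.TaskIntG
import Pool.Agent.H86.MDX.TaskSwap
import Pool.Agent.H86.MDX.TaskMeanFlips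
import Pool.Agent.H86.MDX.TaskFix
import Pool.Agent.H86.MDX.TaskGoodAE
import Pool.Agent.H86.MDX.TaskPlusMeas
import Pool.Agent.H86.MDX.TaskNine
import Pool.Agent.H86.MDX.TaskEnds

namespace Pool.Agent.H86.MDX

variable {d : ℕ}

theorem invol : TaskInvol := taskInvol
theorem lR : TaskLR := taskLR
theorem pres : TaskPres := taskPres
theorem goodAE : TaskGoodAE d := taskGoodAE taskRings taskCluster
theorem unique : TaskUnique d := taskUnique
theorem exist : TaskExist d := taskExist
theorem intG : TaskIntG d := taskIntG (taskMeasAt taskConst goodAE) taskRingInt taskConst goodAE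
theorem swap : TaskSwap d := taskSwap pres unique lR invol goodAE
theorem fix (hd : Odd d) : TaskFix d :=
  taskFix (taskMeanFlips goodAE (taskEdge taskConst) (taskDrop hd) taskConst intG swap)
    swap taskConst pres goodAE intG
theorem plusMeas : TaskPlusMeas d := taskPlusMeas taskConst goodAE
theorem nine (hd : Odd d) : TaskNine d := taskNine taskConst goodAE swap (fix hd)
theorem ends (hd : 0 < d) : TaskEnds d := taskEnds hd unique goodAE

end Pool.Agent.H86.MDX
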