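import Mathlib

/-!
# An entropy inequality for local functions of independent labels on a finite product space

`av w s f` averages `f` over the coordinate `s`; `EE w f` is the mean of `f`.
-/

namespace Pool.Agent.H86.MDX

open Finset

section Log

/-- the deficit `η(a) + η(b) - η(a+b)`, `η(x) = - x log x` -/
noncomputable def kk (a b : ℝ) : ℝ := Real.negMulLog a + Real.negMulLog b - Real.negMulLog (a + b)

theorem mul_log_le {a c : ℝ} (ha : 0 ≤ a) (hc : 0 < c) :
    a * (Real.log c - Real.log a) ≤ c - a := by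
  rcases ha.eq_or_lt with h | h
  · subst h; simp; exact hc.le
  · have h1 : Real.log (c / a) ≤ c / a - 1 := Real.log_le_sub_one_of_pos (div_pos hc h)
    rw [Real.log_div hc.ne' h.ne'] at h1
    have h2 := mul_le_mul_of_nonneg_left h1 h.le
    have h3 : a * (c / a - 1) = c - a := by field_simp
    linarith

theorem kk_le {a b t : ℝ} (ha : 0 ≤ a) (hb : 0 ≤ b) (ht : 0 < t) (ht1 : t < 1) :
    kk a b ≤ a * (-Real.log t) + b * (-Real.log (1 - t)) := by
  unfold kk Real.negMulLog
  rcases (add_nonneg ha hb).eq_or_lt with h | h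
  · have h1 : a = 0 := by linarith
    have h2 : b = 0 := by linarith
    subst h1 h2
    simp
  · have h1 := mul_log_le ha (mul_pos ht h)
    have h2 := mul_log_le hb (mul_pos (sub_pos.2 ht1) h)
    rw [Real.log_mul ht.ne' h.ne'] at h1
    rw [Real.log_mul (sub_pos.2 ht1).ne' h.ne'] at h2
    nlinarith

theorem kk_eq {a b : ℝ} (ha : 0 < a) (hb : 0 < b) :
    kk a b = a * (-Real.log (a / (a + b))) + b * (-Real.log (1 - a / (a + b))) := by
  have hs : 0 < a + b := add_pos ha hb
  have h1 : 1 - a / (a + b) = b / (a + b) := by field_simp; ring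
  rw [h1, Real.log_div ha.ne' hs.ne', Real.log_div hb.ne' hs.ne']
  unfold kk Real.negMulLog
  ring

theorem kk_zero_left (b : ℝ) : kk 0 b = 0 := by unfold kk; simp
theorem kk_zero_right (a : ℝ) : kk a 0 = 0 := by unfold kk; simp

/-- Jensen's inequality for the deficit -/
theorem kk_jensen {ι : Type} [Fintype ι] (w f g : ι → ℝ) (hw : ∀ e, 0 ≤ w e)
    (hf : ∀ e, 0 ≤ f e) (hg : ∀ e, 0 ≤ g e) :
    ∑ e, w e * kk (f e) (g e) ≤ kk (∑ e, w e * f e) (∑ e, w e * g e) := by
  have hA : 0 ≤ ∑ e, w e * f e := sum_nonneg fun e _ => mul_nonneg (hw e) (hf e)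
  have hB : 0 ≤ ∑ e, w e * g e := sum_nonneg fun e _ => mul_nonneg (hw e) (hg e)
  rcases hA.eq_or_lt with h | h
  · rw [← h, kk_zero_left]
    have h1 := (sum_eq_zero_iff_of_nonneg fun e _ => mul_nonneg (hw e) (hf e)).1 h.symm
    refine le_of_eq (sum_eq_zero fun e he => ?_)
    rcases mul_eq_zero.1 (h1 e he) with h2 | h2
    · rw [h2, zero_mul]
    · rw [h2, kk_zero_left, mul_zero]
  rcases hB.eq_or_lt with h' | h'
  · rw [← h', kk_zero_right]
    have h1 := (sum_eq_zero_iff_of_nonneg fun e _ => mul_nonneg (hw e) (hg e)).1 h'.symm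
    refine le_of_eq (sum_eq_zero fun e he => ?_)
    rcases mul_eq_zero.1 (h1 e he) with h2 | h2
    · rw [h2, zero_mul]
    · rw [h2, kk_zero_right, mul_zero]
  rw [kk_eq h h']
  set A := ∑ e, w e * f e with hAd
  set B := ∑ e, w e * g e with hBd
  have ht : 0 < A / (A + B) := div_pos h (add_pos h h')
  have ht1 : A / (A + B) < 1 := by
    rw [div_lt_one (add_pos h h')]
    linarith
  set t := A / (A + B)
  have h3 : A * (-Real.log t) + B * (-Real.log (1 - t)) =
      ∑ e, w e * (f e * (-Real.log t) + g e * (-Real.log (1 - t))) := by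
    rw [hAd, hBd, sum_mul, sum_mul, ← sum_add_distrib]
    refine sum_congr rfl fun e _ => ?_
    ring
  rw [h3]
  exact sum_le_sum fun e _ => mul_le_mul_of_nonneg_left (kk_le (hf e) (hg e) ht ht1) (hw e)

end Log

section FiniteProduct

variable {G K : Type} [Fintype G] [DecidableEq G] [Fintype K] (w : K → ℝ)

/-- average over the coordinate `s` -/
def av (s : G) (f : (G → K) → ℝ) : (G → K) → ℝ := fun z => ∑ e, w e * f (Function.update z s e)

/-- the mean for the product weights -/
def EE (f : (G → K) → ℝ) : ℝ := ∑ z : G → K, (∏ g, w (z g)) * f z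

/-- `f` does not depend on the coordinate `s` -/
def NoDep (s : G) (f : (G → K) → ℝ) : Prop := ∀ z e, f (Function.update z s e) = f z

theorem EE_av (hw : ∑ e, w e = 1) (s : G) (f : (G → K) → ℝ) : EE w (av w s f) = EE w f := by
  unfold EE av
  have h1 : ∑ z : G → K, (∏ g, w (z g)) * ∑ e, w e * f (Function.update z s e) =
      ∑ q : (G → K) × K, (∏ g, w (q.1 g)) * (w q.2 * f (Function.update q.1 s q.2)) := by
    rw [Fintype.sum_prod_type]
    simp_rw [Finset.mul_sum]
  have h2 : ∑ z : G → K, (∏ g, w (z g)) * f z =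
      ∑ q : (G → K) × K, (∏ g, w (q.1 g)) * (w q.2 * f q.1) := by
    rw [Fintype.sum_prod_type]
    refine sum_congr rfl fun z _ => ?_
    simp only
    rw [← Finset.mul_sum, ← Finset.sum_mul, hw, one_mul]
  rw [h1, h2]
  let τ : (G → K) × K ≃ (G → K) × K :=
    { toFun := fun q => (Function.update q.1 s q.2, q.1 s)
      invFun := fun q => (Function.update q.1 s q.2, q.1 s)
      left_inv := fun q => by simp
      right_inv := fun q => by simp }
  refine Fintype.sum_equiv τ _ _ fun q => ?_
  have h3 : (∏ g, w (q.1 g)) * w q.2 = (∏ g, w (Function.update q.1 s q.2 g)) * w (q.1 s) := by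
    rw [← Finset.mul_prod_erase univ (fun g => w (q.1 g)) (mem_univ s),
      ← Finset.mul_prod_erase univ (fun g => w (Function.update q.1 s q.2 g)) (mem_univ s)]
    have h4 : ∏ g ∈ univ.erase s, w (Function.update q.1 s q.2 g) =
        ∏ g ∈ univ.erase s, w (q.1 g) := by
      refine prod_congr rfl fun g hg => ?_
      rw [Function.update_of_ne (ne_of_mem_erase hg)]
    rw [h4]
    simp only [Function.update_self]
    ring
  show (∏ g, w (q.1 g)) * (w q.2 * f (Function.update q.1 s q.2)) =
    (∏ g, w (Function.update q.1 s q.2 g)) * (w (q.1 s) * f (Function.update q.1 s q.2))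
  rw [← mul_assoc, ← mul_assoc, h3]

variable {w}

theorem EE_add (f g : (G → K) → ℝ) : EE w (fun z => f z + g z) = EE w f + EE w g := by
  unfold EE
  rw [← sum_add_distrib]
  exact sum_congr rfl fun z _ => by ring

theorem EE_sub (f g : (G → K) → ℝ) : EE w (fun z => f z - g z) = EE w f - EE w g := by
  unfold EE
  rw [← sum_sub_distrib]
  exact sum_congr rfl fun z _ => by ring

theorem EE_mono (hw : ∀ e, 0 ≤ w e) {f g : (G → K) → ℝ} (h : ∀ z, f z ≤ g z) :
    EE w f ≤ EE w g :=
  sum_le_sum fun z _ => mul_le_mul_of_nonneg_left (h z) (prod_nonneg fun g _ => hw _)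

theorem EE_one (hw : ∑ e, w e = 1) : EE w (fun _ : G → K => (1 : ℝ)) = 1 := by
  unfold EE
  simp only [mul_one]
  have h := Finset.prod_univ_sum (fun _ : G => (univ : Finset K)) (fun _ e => w e)
  rw [Fintype.piFinset_univ] at h
  rw [← h]
  simp [hw]

theorem EE_const (hw : ∑ e, w e = 1) (c : ℝ) : EE w (fun _ : G → K => c) = c := by
  have h := EE_one (G := G) hw
  unfold EE at h ⊢
  rw [← Finset.sum_mul]
  simp only [mul_one] at h
  rw [h, one_mul]

theorem av_add (s : G) (f g : (G → K) → ℝ) :
    av w s (fun z => f z + g z) = fun z => av w s f z + av w s g z := by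
  funext z
  unfold av
  rw [← sum_add_distrib]
  exact sum_congr rfl fun e _ => by ring

theorem av_nonneg (hw : ∀ e, 0 ≤ w e) (s : G) {f : (G → K) → ℝ} (hf : ∀ z, 0 ≤ f z) (z : G → K) :
    0 ≤ av w s f z := sum_nonneg fun e _ => mul_nonneg (hw e) (hf _)

theorem av_of_noDep (hw : ∑ e, w e = 1) {s : G} {f : (G → K) → ℝ} (h : NoDep s f) :
    av w s f = f := by
  funext z
  unfold av
  simp_rw [h z]
  rw [← Finset.sum_mul, hw, one_mul]

theorem noDep_av_self (s : G) (f : (G → K) → ℝ) : NoDep s (av w s f) := by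
  intro z e
  unfold av
  exact sum_congr rfl fun e' _ => by rw [Function.update_idem]

theorem noDep_av {s : G} (t : G) {f : (G → K) → ℝ} (h : NoDep s f) : NoDep s (av w t f) := by
  by_cases hst : s = t
  · subst hst; exact noDep_av_self s f
  · intro z e
    unfold av
    refine sum_congr rfl fun e' _ => ?_
    rw [Function.update_comm hst, h]

/-- the increment of the mean of `η ∘ f` when the coordinate `s` is averaged out -/
noncomputable def DD (w : K → ℝ) (s : G) (f : (G → K) → ℝ) : ℝ :=
  EE w (fun z => Real.negMulLog (av w s f z)) - EE w (fun z => Real.negMulLog (f z))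

theorem DD_noDep (hw : ∑ e, w e = 1) {s : G} {f : (G → K) → ℝ} (h : NoDep s f) :
    DD w s f = 0 := by
  unfold DD
  rw [av_of_noDep hw h, sub_self]

theorem DD_add (hw0 : ∀ e, 0 ≤ w e) (hw : ∑ e, w e = 1) (s : G) {f g : (G → K) → ℝ}
    (hf : ∀ z, 0 ≤ f z) (hg : ∀ z, 0 ≤ g z) :
    DD w s (fun z => f z + g z) ≤ DD w s f + DD w s g := by
  have h1 : EE w (av w s (fun z => kk (f z) (g z))) ≤
      EE w (fun z => kk (av w s f z) (av w s g z)) := by
    refine EE_mono hw0 fun z => ?_
    exact kk_jensen w (fun e => f (Function.update z s e)) (fun e => g (Function.update z s e)) hw0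
      (fun e => hf _) (fun e => hg _)
  rw [EE_av w hw] at h1
  unfold kk at h1
  rw [EE_sub, EE_add, EE_sub, EE_add] at h1
  unfold DD
  rw [av_add]
  linarith

/-- iterated averages -/
def avl (w : K → ℝ) (l : List G) (f : (G → K) → ℝ) : (G → K) → ℝ :=
  l.foldr (fun s f => av w s f) f

theorem avl_cons (s : G) (l : List G) (f : (G → K) → ℝ) :
    avl w (s :: l) f = av w s (avl w l f) := rfl

theorem avl_add (l : List G) (f g : (G → K) → ℝ) :
    avl w l (fun z => f z + g z) = fun z => avl w l f z + avl w l g z := by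
  induction l with
  | nil => rfl
  | cons s l ih => rw [avl_cons, ih, av_add]; rfl

theorem avl_nonneg (hw : ∀ e, 0 ≤ w e) (l : List G) {f : (G → K) → ℝ} (hf : ∀ z, 0 ≤ f z) :
    ∀ z, 0 ≤ avl w l f z := by
  induction l with
  | nil => exact hf
  | cons s l ih => exact fun z => av_nonneg hw s ih z

theorem avl_noDep {s : G} (l : List G) {f : (G → K) → ℝ} (h : NoDep s f) :
    NoDep s (avl w l f) := by
  induction l with
  | nil => exact h
  | cons t l ih => exact noDep_av t ih

theorem avl_noDep_mem {s : G} (l : List G) (hs : s ∈ l) (f : (G → K) → ℝ) :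
    NoDep s (avl w l f) := by
  induction l with
  | nil => simp at hs
  | cons t l ih =>
    rcases List.mem_cons.1 hs with h | h
    · subst h; exact noDep_av_self _ _
    · exact noDep_av t (ih h)

theorem EE_avl (hw : ∑ e, w e = 1) (l : List G) (f : (G → K) → ℝ) :
    EE w (avl w l f) = EE w f := by
  induction l with
  | nil => rfl
  | cons s l ih => rw [avl_cons, EE_av w hw, ih]

theorem const_of_noDep {f : (G → K) → ℝ} (h : ∀ s, NoDep s f) (z z' : G → K) : f z = f z' := by
  have key : ∀ T : Finset G, ∀ z : G → K, (∀ g, g ∉ T → z g = z' g) → f z = f z' := by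
    intro T
    induction T using Finset.induction_on with
    | empty =>
      intro z hz
      have : z = z' := funext fun g => hz g (by simp)
      rw [this]
    | insert s T hs ih =>
      intro z hz
      rw [← h s z (z' s)]
      refine ih _ fun g hg => ?_
      by_cases hgs : g = s
      · subst hgs; simp
      · rw [Function.update_of_ne hgs]
        exact hz g (by simp [hgs, hg])
  exact key univ z (by simp)

theorem avl_univ (hw : ∑ e, w e = 1) (f : (G → K) → ℝ) :
    avl w (univ : Finset G).toList f = fun _ => EE w f := by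
  have h1 : ∀ s, NoDep s (avl w (univ : Finset G).toList f) :=
    fun s => avl_noDep_mem _ (by simp) f
  funext z
  have h2 := const_of_noDep h1
  have h3 : avl w (univ : Finset G).toList f = fun _ => avl w (univ : Finset G).toList f z :=
    funext fun z' => h2 z' z
  rw [← EE_avl hw (univ : Finset G).toList f]
  conv_rhs => rw [h3]
  rw [EE_const hw]

variable {d : ℕ}

/-- the sum of the entropies of the edges (each edge twice) minus `2 (d - 1)` times the sum of the
entropies of the vertices, after averaging over the coordinates in `l` -/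
noncomputable def TT (w : K → ℝ) (nb : Fin d → G → G) (X : G → (G → K) → ℝ) (l : List G) : ℝ :=
  ∑ g, ∑ i, (EE w (fun z => Real.negMulLog (avl w l (fun z => X g z * X (nb i g) z) z)) +
    EE w (fun z => Real.negMulLog (avl w l (fun z => X g z * (1 - X (nb i g) z)) z)) +
    (EE w (fun z => Real.negMulLog (avl w l (fun z => (1 - X g z) * X (nb i g) z) z)) +
    EE w (fun z => Real.negMulLog (avl w l (fun z => (1 - X g z) * (1 - X (nb i g) z)) z)))) -
  2 * ((d : ℝ) - 1) * ∑ g, (EE w (fun z => Real.negMulLog (avl w l (X g) z)) +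
    EE w (fun z => Real.negMulLog (avl w l (fun z => 1 - X g z) z)))

theorem TT_step (hw0 : ∀ e, 0 ≤ w e) (hw : ∑ e, w e = 1) (nb : Fin d → G → G)
    (hnb : ∀ i g, nb i (nb i g) = g) (X : G → (G → K) → ℝ)
    (hX0 : ∀ g z, 0 ≤ X g z) (hX1 : ∀ g z, X g z ≤ 1) (s : G)
    (hmin : ∀ a : G → ℝ, (∀ g, 0 ≤ a g) → (∀ g, NoDep s (X g) → a g = 0) →
      ∑ g, ∑ i, min (a g) (a (nb i g)) ≤ 2 * ∑ g, a g) (l : List G) :
    TT w nb X l ≤ TT w nb X (s :: l) := by
  have hX1' : ∀ g z, 0 ≤ 1 - X g z := fun g z => sub_nonneg.2 (hX1 g z)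
  -- the increments of the vertices
  set a : G → ℝ := fun g => DD w s (avl w l (X g)) + DD w s (avl w l (fun z => 1 - X g z)) with ha
  set b : G → Fin d → ℝ := fun g i =>
    DD w s (avl w l (fun z => X g z * X (nb i g) z)) +
    DD w s (avl w l (fun z => X g z * (1 - X (nb i g) z))) +
    (DD w s (avl w l (fun z => (1 - X g z) * X (nb i g) z)) +
    DD w s (avl w l (fun z => (1 - X g z) * (1 - X (nb i g) z)))) with hb
  have hTT : TT w nb X (s :: l) - TT w nb X l =
      ∑ g, ∑ i, b g i - 2 * ((d : ℝ) - 1) * ∑ g, a g := by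
    unfold TT
    simp only [avl_cons, ha, hb, DD, sum_add_distrib, sum_sub_distrib]
    ring
  have ha0 : ∀ g, 0 ≤ a g := by
    intro g
    have h1 := DD_add hw0 hw s (avl_nonneg hw0 l (hX0 g)) (avl_nonneg hw0 l (hX1' g))
    rw [← avl_add] at h1
    have h2 : NoDep s (avl w l (fun z => X g z + (1 - X g z))) := by
      apply avl_noDep
      intro z e
      ring
    rw [DD_noDep hw h2] at h1
    exact h1
  have hadep : ∀ g, NoDep s (X g) → a g = 0 := by
    intro g hg
    have h2 : NoDep s (fun z => 1 - X g z) := by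
      intro z e
      show 1 - X g _ = 1 - X g _
      rw [hg z e]
    simp only [ha]
    rw [DD_noDep hw (avl_noDep l hg), DD_noDep hw (avl_noDep l h2), add_zero]
  -- the increment of an edge is at least the increment of each end
  have hb1 : ∀ g i, a g ≤ b g i := by
    intro g i
    have h1 := DD_add hw0 hw s
      (avl_nonneg hw0 l (f := fun z => X g z * X (nb i g) z) fun z => mul_nonneg (hX0 g z) (hX0 _ z))
      (avl_nonneg hw0 l (f := fun z => X g z * (1 - X (nb i g) z)) fun z =>
        mul_nonneg (hX0 g z) (hX1' _ z))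
    have h2 := DD_add hw0 hw s
      (avl_nonneg hw0 l (f := fun z => (1 - X g z) * X (nb i g) z) fun z =>
        mul_nonneg (hX1' g z) (hX0 _ z))
      (avl_nonneg hw0 l (f := fun z => (1 - X g z) * (1 - X (nb i g) z)) fun z =>
        mul_nonneg (hX1' g z) (hX1' _ z))
    rw [← avl_add] at h1 h2
    have e1 : (fun z => X g z * X (nb i g) z + X g z * (1 - X (nb i g) z)) = X g := by
      funext z; ring
    have e2 : (fun z => (1 - X g z) * X (nb i g) z + (1 - X g z) * (1 - X (nb i g) z)) =
        fun z => 1 - X g z := by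
      funext z; ring
    rw [e1] at h1
    rw [e2] at h2
    simp only [ha, hb]
    linarith
  have hb2 : ∀ g i, a (nb i g) ≤ b g i := by
    intro g i
    have h1 := DD_add hw0 hw s
      (avl_nonneg hw0 l (f := fun z => X g z * X (nb i g) z) fun z => mul_nonneg (hX0 g z) (hX0 _ z))
      (avl_nonneg hw0 l (f := fun z => (1 - X g z) * X (nb i g) z) fun z =>
        mul_nonneg (hX1' g z) (hX0 _ z))
    have h2 := DD_add hw0 hw s
      (avl_nonneg hw0 l (f := fun z => X g z * (1 - X (nb i g) z)) fun z =>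
        mul_nonneg (hX0 g z) (hX1' _ z))
      (avl_nonneg hw0 l (f := fun z => (1 - X g z) * (1 - X (nb i g) z)) fun z =>
        mul_nonneg (hX1' g z) (hX1' _ z))
    rw [← avl_add] at h1 h2
    have e1 : (fun z => X g z * X (nb i g) z + (1 - X g z) * X (nb i g) z) = X (nb i g) := by
      funext z; ring
    have e2 : (fun z => X g z * (1 - X (nb i g) z) + (1 - X g z) * (1 - X (nb i g) z)) =
        fun z => 1 - X (nb i g) z := by
      funext z; ring
    rw [e1] at h1
    rw [e2] at h2
    simp only [ha, hb]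
    linarith
  have hsum : ∑ g, ∑ i : Fin d, a (nb i g) = ∑ g, ∑ _i : Fin d, a g := by
    rw [sum_comm, sum_comm (f := fun g (_ : Fin d) => a g)]
    refine sum_congr rfl fun i _ => ?_
    exact Fintype.sum_equiv ⟨nb i, nb i, hnb i, hnb i⟩ _ _ fun g => rfl
  have h1 : ∑ g, ∑ i : Fin d, (a g + a (nb i g) - min (a g) (a (nb i g))) ≤ ∑ g, ∑ i, b g i := by
    refine sum_le_sum fun g _ => sum_le_sum fun i _ => ?_
    rcases le_total (a g) (a (nb i g)) with h | h
    · rw [min_eq_left h]; linarith [hb2 g i]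
    · rw [min_eq_right h]; linarith [hb1 g i]
  simp only [sum_add_distrib, sum_sub_distrib] at h1
  rw [hsum] at h1
  simp only [sum_const, card_univ, Fintype.card_fin, nsmul_eq_mul] at h1
  rw [← mul_sum] at h1
  have h2 := hmin a ha0 hadep
  linarith

theorem TT_nonneg (hw0 : ∀ e, 0 ≤ w e) (hw : ∑ e, w e = 1) (nb : Fin d → G → G)
    (hnb : ∀ i g, nb i (nb i g) = g) (X : G → (G → K) → ℝ)
    (hX : ∀ g z, X g z = 0 ∨ X g z = 1)
    (hmin : ∀ (s : G) (a : G → ℝ), (∀ g, 0 ≤ a g) → (∀ g, NoDep s (X g) → a g = 0) →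
      ∑ g, ∑ i, min (a g) (a (nb i g)) ≤ 2 * ∑ g, a g) (l : List G) :
    0 ≤ TT w nb X l := by
  have hX0 : ∀ g z, 0 ≤ X g z := fun g z => by rcases hX g z with h | h <;> rw [h]; norm_num
  have hX1 : ∀ g z, X g z ≤ 1 := fun g z => by rcases hX g z with h | h <;> rw [h]; norm_num
  induction l with
  | nil =>
    unfold TT avl
    simp only [List.foldr_nil]
    have h0 : ∀ f : (G → K) → ℝ, (∀ z, f z = 0 ∨ f z = 1) →
        EE w (fun z => Real.negMulLog (f z)) = 0 := by
      intro f hf
      have : (fun z => Real.negMulLog (f z)) = fun _ => 0 := by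
        funext z
        rcases hf z with h | h <;> rw [h] <;> simp
      rw [this, EE_const hw]
    have e1 : ∀ g i, EE w (fun z => Real.negMulLog (X g z * X (nb i g) z)) = 0 := fun g i =>
      h0 _ fun z => by rcases hX g z with h | h <;> rcases hX (nb i g) z with h' | h' <;> simp [h, h']
    have e2 : ∀ g i, EE w (fun z => Real.negMulLog (X g z * (1 - X (nb i g) z))) = 0 := fun g i =>
      h0 _ fun z => by rcases hX g z with h | h <;> rcases hX (nb i g) z with h' | h' <;> simp [h, h']
    have e3 : ∀ g i, EE w (fun z => Real.negMulLog ((1 - X g z) * X (nb i g) z)) = 0 := fun g i =>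
      h0 _ fun z => by rcases hX g z with h | h <;> rcases hX (nb i g) z with h' | h' <;> simp [h, h']
    have e4 : ∀ g i, EE w (fun z => Real.negMulLog ((1 - X g z) * (1 - X (nb i g) z))) = 0 :=
      fun g i => h0 _ fun z => by
        rcases hX g z with h | h <;> rcases hX (nb i g) z with h' | h' <;> simp [h, h']
    have e5 : ∀ g, EE w (fun z => Real.negMulLog (X g z)) = 0 := fun g => h0 _ (hX g)
    have e6 : ∀ g, EE w (fun z => Real.negMulLog (1 - X g z)) = 0 := fun g =>
      h0 _ fun z => by rcases hX g z with h | h <;> simp [h]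
    simp [e1, e2, e3, e4, e5, e6]
  | cons s l ih => exact ih.trans (TT_step hw0 hw nb hnb X hX0 hX1 s (hmin s) l)

/-- The sum of the entropies of the edges (each edge twice) is at least `2 (d - 1)` times the sum
of the entropies of the vertices. -/
theorem entropy_ineq (hw0 : ∀ e, 0 ≤ w e) (hw : ∑ e, w e = 1) (nb : Fin d → G → G)
    (hnb : ∀ i g, nb i (nb i g) = g) (X : G → (G → K) → ℝ)
    (hX : ∀ g z, X g z = 0 ∨ X g z = 1)
    (hmin : ∀ (s : G) (a : G → ℝ), (∀ g, 0 ≤ a g) → (∀ g, NoDep s (X g) → a g = 0) →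
      ∑ g, ∑ i, min (a g) (a (nb i g)) ≤ 2 * ∑ g, a g) :
    2 * ((d : ℝ) - 1) * ∑ g, (Real.negMulLog (EE w (X g)) + Real.negMulLog (1 - EE w (X g))) ≤
    ∑ g, ∑ i, (Real.negMulLog (EE w (fun z => X g z * X (nb i g) z)) +
      Real.negMulLog (EE w (X g) - EE w (fun z => X g z * X (nb i g) z)) +
      (Real.negMulLog (EE w (X (nb i g)) - EE w (fun z => X g z * X (nb i g) z)) +
      Real.negMulLog (1 - EE w (X g) - EE w (X (nb i g)) +
        EE w (fun z => X g z * X (nb i g) z)))) := by
  have h := TT_nonneg hw0 hw nb hnb X hX hmin (univ : Finset G).toList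
  unfold TT at h
  simp only [avl_univ hw, EE_const hw] at h
  have e1 : ∀ g, EE w (fun z => 1 - X g z) = 1 - EE w (X g) := fun g => by
    rw [EE_sub, EE_one hw]
  have e2 : ∀ g i, EE w (fun z => X g z * (1 - X (nb i g) z)) =
      EE w (X g) - EE w (fun z => X g z * X (nb i g) z) := fun g i => by
    rw [← EE_sub]
    congr 1
    funext z
    ring
  have e3 : ∀ g i, EE w (fun z => (1 - X g z) * X (nb i g) z) =
      EE w (X (nb i g)) - EE w (fun z => X g z * X (nb i g) z) := fun g i => by
    rw [← EE_sub]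
    congr 1
    funext z
    ring
  have e4 : ∀ g i, EE w (fun z => (1 - X g z) * (1 - X (nb i g) z)) =
      1 - EE w (X g) - EE w (X (nb i g)) + EE w (fun z => X g z * X (nb i g) z) := fun g i => by
    have h1 := EE_one (G := G) hw
    have h2 := EE_sub (w := w) (fun _ : G → K => (1 : ℝ)) (X g)
    have h3 := EE_sub (w := w) (fun z : G → K => (1 : ℝ) - X g z) (X (nb i g))
    have h4 := EE_add (w := w) (fun z : G → K => (1 : ℝ) - X g z - X (nb i g) z)
      (fun z => X g z * X (nb i g) z)
    have h5 : (fun z : G → K => (1 : ℝ) - X g z - X (nb i g) z + X g z * X (nb i g) z) =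
        fun z => (1 - X g z) * (1 - X (nb i g) z) := by
      funext z
      ring
    rw [h5] at h4
    linarith
  simp only [e1, e2, e3, e4] at h
  linarith

end FiniteProduct

end Pool.Agent.H86.MDX
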