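import Pool.Agent.H86.MDX.Law

/-!
# The gap: a set of labellings with many neighbours in it has probability zero or is not small
-/

namespace Pool.Agent.H86.MDX

open MeasureTheory ProbabilityTheory Filter Topology Finset

variable {d : ℕ}

theorem eta_le {p θ : ℝ} (hp : 0 ≤ p) (hθ : 0 < θ) :
    Real.negMulLog p ≤ p * (-Real.log θ) + θ - p := by
  have h := mul_log_le hp hθ
  unfold Real.negMulLog
  nlinarith

theorem eta_le_one {p : ℝ} (hp : 0 ≤ p) : Real.negMulLog p ≤ 1 - p := by
  have h := eta_le hp zero_lt_one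
  rw [Real.log_one] at h
  linarith

theorem num_gap (hd5 : 5 ≤ d) {θ : ℝ} {q : Fin d → ℝ} (hθ : 0 < θ) (hθ1 : θ ≤ 1)
    (hq0 : ∀ i, 0 ≤ q i) (hqθ : ∀ i, q i ≤ θ) (hq1 : ∀ i, 0 ≤ 1 - 2 * θ + q i)
    (hsum : ((d : ℝ) + 1) * θ ≤ 2 * ∑ i, q i)
    (hmain : 2 * ((d : ℝ) - 1) * (Real.negMulLog θ + Real.negMulLog (1 - θ)) ≤
      ∑ i, (Real.negMulLog (q i) + 2 * Real.negMulLog (θ - q i) +
        Real.negMulLog (1 - 2 * θ + q i))) :
    Real.exp (-(6 * (d : ℝ) / (d - 3))) ≤ θ := by
  have hd : (5 : ℝ) ≤ d := by exact_mod_cast hd5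
  set Lg : ℝ := -Real.log θ with hLg
  have hL0 : 0 ≤ Lg := by
    have := Real.log_nonpos hθ.le hθ1
    linarith
  have h1 : ∀ i, Real.negMulLog (q i) + 2 * Real.negMulLog (θ - q i) +
      Real.negMulLog (1 - 2 * θ + q i) ≤ (2 * θ - q i) * Lg + 3 * θ := by
    intro i
    have e1 := eta_le (hq0 i) hθ
    have e2 := eta_le (sub_nonneg.2 (hqθ i)) hθ
    have e3 := eta_le_one (hq1 i)
    rw [← hLg] at e1 e2
    nlinarith
  have h2 := hmain.trans (Finset.sum_le_sum fun i (_ : i ∈ Finset.univ) => h1 i)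
  rw [Finset.sum_add_distrib, ← Finset.sum_mul, Finset.sum_sub_distrib] at h2
  simp only [Finset.sum_const, Finset.card_univ, Fintype.card_fin, nsmul_eq_mul] at h2
  have h3 : Real.negMulLog θ = θ * Lg := by
    rw [hLg]
    unfold Real.negMulLog
    ring
  have h4 : 0 ≤ Real.negMulLog (1 - θ) := Real.negMulLog_nonneg (by linarith) (by linarith)
  rw [h3] at h2
  set S := ∑ i, q i with hS
  have h5 : 2 * ((d : ℝ) - 1) * (θ * Lg) ≤ ((d : ℝ) * (2 * θ) - S) * Lg + d * (3 * θ) := by
    refine le_trans ?_ h2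
    have : 0 ≤ 2 * ((d : ℝ) - 1) := by linarith
    nlinarith
  have h6 : ((d : ℝ) + 1) * θ / 2 * Lg ≤ S * Lg :=
    mul_le_mul_of_nonneg_right (by linarith) hL0
  have h7 : θ * (((d : ℝ) - 3) / 2 * Lg) ≤ θ * (3 * d) := by nlinarith
  have h8 : ((d : ℝ) - 3) / 2 * Lg ≤ 3 * d := le_of_mul_le_mul_left h7 hθ
  have h9 : Lg ≤ 6 * (d : ℝ) / (d - 3) := by
    rw [le_div_iff₀ (by linarith)]
    linarith
  have h10 : θ = Real.exp (-Lg) := by
    rw [hLg, neg_neg, Real.exp_log hθ]
  rw [h10]
  exact Real.exp_le_exp.2 (by linarith)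

/-- **The gap.** If almost surely at least half of the neighbours of a point of `A` are in `A`, then
`P(A) = 0` or `P(A) ≥ exp (- 6 d / (d - 3))`. -/
theorem taskGap (hodd : Odd d) (hd5 : 5 ≤ d) (E : Type) [MeasurableSpace E] (ν : Measure E)
    [IsProbabilityMeasure ν] (A : Set (Om d E)) (hA : NullMeasurableSet A (PP d ν))
    (hae : ∀ᵐ ω ∂PP d ν, ω ∈ A → d < 2 * {i : Fin d | act i ω ∈ A}.ncard) :
    (PP d ν).real A = 0 ∨ Real.exp (-(6 * (d : ℝ) / (d - 3))) ≤ (PP d ν).real A := by
  classical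
  obtain ⟨T, -, hT, hTA⟩ := hA.exists_measurable_superset_ae_eq
  have hreal : (PP d ν).real A = (PP d ν).real T := (measureReal_congr hTA).symm
  have hp : ∀ i : Fin d, MeasurePreserving (act (E := E) i) (PP d ν) (PP d ν) := taskPres d E ν
  have hm : ∀ᵐ ω ∂PP d ν, (ω ∈ T ↔ ω ∈ A) := by
    filter_upwards [hTA] with ω hω
    exact Iff.of_eq hω
  have hmi : ∀ᵐ ω ∂PP d ν, ∀ i : Fin d, (act i ω ∈ T ↔ act i ω ∈ A) := by
    rw [ae_all_iff]
    intro i
    exact (hp i).quasiMeasurePreserving.ae hm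
  have hint : ∀ i : Fin d, Integrable ((T ∩ act i ⁻¹' T).indicator (1 : Om d E → ℝ)) (PP d ν) := by
    intro i
    exact (integrable_const (1 : ℝ)).indicator (hT.inter ((hp i).measurable hT))
  have hle : ((d : ℝ) + 1) * (PP d ν).real T ≤ 2 * ∑ i : Fin d, (PP d ν).real (T ∩ act i ⁻¹' T) := by
    have h1 : 2 * ∑ i : Fin d, (PP d ν).real (T ∩ act i ⁻¹' T) =
        ∫ ω, 2 * ∑ i : Fin d, (T ∩ act i ⁻¹' T).indicator (1 : Om d E → ℝ) ω ∂PP d ν := by
      rw [integral_const_mul, integral_finsetSum _ (fun i _ => hint i)]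
      congr 1
      refine Finset.sum_congr rfl fun i _ => ?_
      rw [integral_indicator_one (hT.inter ((hp i).measurable hT))]
    have h2 : ((d : ℝ) + 1) * (PP d ν).real T =
        ∫ ω, ((d : ℝ) + 1) * T.indicator (1 : Om d E → ℝ) ω ∂PP d ν := by
      rw [integral_const_mul, integral_indicator_one hT]
    rw [h1, h2]
    refine integral_mono_ae ?_ ?_ ?_
    · exact ((integrable_const (1 : ℝ)).indicator hT).const_mul _
    · exact (integrable_finsetSum _ (fun i _ => hint i)).const_mul _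
    · filter_upwards [hae, hm, hmi] with ω h9 h0 hi
      by_cases hω : ω ∈ T
      · have h9' := h9 (h0.1 hω)
        have hset : {i : Fin d | act i ω ∈ A}.ncard =
            (Finset.univ.filter (fun i : Fin d => act i ω ∈ T)).card := by
          rw [← Set.ncard_coe_finset]
          congr 1
          ext i
          simp [hi i]
        have hsum : ∑ i : Fin d, (T ∩ act i ⁻¹' T).indicator (1 : Om d E → ℝ) ω =
            ((Finset.univ.filter (fun i : Fin d => act i ω ∈ T)).card : ℝ) := by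
          rw [Finset.card_filter]
          push_cast
          refine Finset.sum_congr rfl fun i _ => ?_
          by_cases hi' : act i ω ∈ T
          · have hmem : ω ∈ T ∩ act i ⁻¹' T := Set.mem_inter hω hi'
            rw [if_pos hi', Set.indicator_of_mem hmem]
            rfl
          · rw [if_neg hi', Set.indicator_of_notMem]
            exact fun h => hi' h.2
        have h99 : (d : ℝ) + 1 ≤
            2 * ((Finset.univ.filter (fun i : Fin d => act i ω ∈ T)).card : ℝ) := by
          rw [← hset]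
          have : d + 1 ≤ 2 * {i : Fin d | act i ω ∈ A}.ncard := h9'
          exact_mod_cast this
        show ((d : ℝ) + 1) * T.indicator (1 : Om d E → ℝ) ω ≤
          2 * ∑ i : Fin d, (T ∩ act i ⁻¹' T).indicator (1 : Om d E → ℝ) ω
        rw [hsum, Set.indicator_of_mem hω]
        simpa using h99
      · show ((d : ℝ) + 1) * T.indicator (1 : Om d E → ℝ) ω ≤
          2 * ∑ i : Fin d, (T ∩ act i ⁻¹' T).indicator (1 : Om d E → ℝ) ω
        rw [Set.indicator_of_notMem hω, mul_zero]
        exact mul_nonneg zero_le_two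
          (Finset.sum_nonneg fun i _ => Set.indicator_nonneg (fun _ _ => zero_le_one) _)
  rw [hreal]
  have hθ0 : 0 ≤ (PP d ν).real T := measureReal_nonneg
  rcases hθ0.eq_or_lt with h | h
  · left
    exact h.symm
  · right
    refine num_gap hd5 h measureReal_le_one (fun i => measureReal_nonneg)
      (fun i => measureReal_mono Set.inter_subset_left) (fun i => ?_) hle (main_ineq ν hT)
    have h1 := measureReal_union_add_inter (μ := PP d ν) (s := T) (t := act i ⁻¹' T)
      ((hp i).measurable hT)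
    have h2 : (PP d ν).real (act i ⁻¹' T) = (PP d ν).real T := by
      rw [Measure.real, Measure.real, (hp i).measure_preimage hT.nullMeasurableSet]
    have h3 : (PP d ν).real (T ∪ act i ⁻¹' T) ≤ 1 := measureReal_le_one
    linarith

end Pool.Agent.H86.MDX
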