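import Pool.Agent.H86.MDX.TaskUnique

/-!
# The dynamics is monotone in the initial density
-/

namespace Pool.Agent.H86.MDX

variable {d : ℕ}

open Finset

/-- the dynamics is monotone in the initial density -/
theorem sol_mono {p p' : ℝ} (hpp : p ≤ p') (ω : Om d Lab) (v v' : V d → ℝ → Prop) (hg : GoodW ω)
    (hv : IsSol p ω v) (hv' : IsSol p' ω v') : ∀ x t, v x t → v' x t := by
  classical
  have hpos := hg.pos
  -- the last ring before `t`
  have hlast : ∀ (x : V d) (t : ℝ), (∀ s ∈ Ring d (ω x), t ≤ s) ∨
      ∃ s ∈ Ring d (ω x), s < t ∧ ∀ s' ∈ Ring d (ω x), s' < t → s' ≤ s := by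
    intro x t
    by_cases h : ∀ s ∈ Ring d (ω x), t ≤ s
    · exact Or.inl h
    · right
      push Not at h
      obtain ⟨s0, hs0, hs0t⟩ := h
      have hfin := taskUnique_ring_finite d (ω x) (hpos x) t
      obtain ⟨s, hs, hmax⟩ := Set.exists_max_image _ (fun s : ℝ => s) hfin ⟨s0, hs0, hs0t⟩
      exact ⟨s, hs.1, hs.2, fun s' h1 h2 => hmax s' ⟨h1, h2⟩⟩
  have hmaj : ∀ (y : V d) (s : ℝ), (∀ i, v (R i y) s → v' (R i y) s) →
      (maj (fun i => v (R i y) s) → maj (fun i => v' (R i y) s)) := by
    intro y s h h1
    have h2 : {i : Fin d | v (R i y) s}.ncard ≤ {i : Fin d | v' (R i y) s}.ncard :=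
      Set.ncard_le_ncard (fun i hi => h i hi) (Set.toFinite _)
    have h3 : d < 2 * {i : Fin d | v (R i y) s}.ncard := h1
    show d < 2 * {i : Fin d | v' (R i y) s}.ncard
    omega
  have hblock : ∀ K : ℕ, ∀ t : ℝ, t ≤ (K : ℝ) / bk d → ∀ x, v x t → v' x t := by
    intro K
    induction K with
    | zero =>
      intro t ht x
      have h0 : ∀ s ∈ Ring d (ω x), t ≤ s := by
        intro s hs
        have := taskUnique_ring_pos (hpos x) hs
        simp at ht
        linarith
      rw [(hv x t).1 h0, (hv' x t).1 h0]
      exact fun h => h.trans hpp
    | succ K ih =>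
      intro t ht x
      obtain ⟨B, hxB, hB⟩ := hg.clu K x
      -- all ring times of the vertices of `B`
      have hF : (⋃ y ∈ B, {s | s ∈ Ring d (ω y) ∧ s < ((K + 1 : ℕ) : ℝ) / bk d}).Finite :=
        Set.Finite.biUnion (Finset.finite_toSet B) fun y _ => taskUnique_ring_finite d (ω y) (hpos y) _
      set F := hF.toFinset with hFdef
      have key : ∀ n : ℕ, ∀ t : ℝ, t ≤ ((K + 1 : ℕ) : ℝ) / bk d → (F.filter (· < t)).card = n →
          ∀ y ∈ B, v y t → v' y t := by
        intro n
        induction n using Nat.strong_induction_on with
        | _ n IH =>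
          intro t ht hn y hy
          rcases hlast y t with h | ⟨s, hs, hst, hmax⟩
          · rw [(hv y t).1 h, (hv' y t).1 h]
            exact fun h => h.trans hpp
          · rw [(hv y t).2 s hs hst hmax, (hv' y t).2 s hs hst hmax]
            apply hmaj
            intro i
            rcases le_or_gt s ((K : ℝ) / bk d) with hsK | hsK
            · exact ih s hsK _
            · have hsF : s ∈ F := by
                rw [hFdef, Set.Finite.mem_toFinset]
                simp only [Set.mem_iUnion]
                exact ⟨y, hy, hs, lt_of_lt_of_le hst ht⟩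
              have hblk : 1 ≤ ((ω y).2 K).1 := by
                obtain ⟨k, j, hj, hsk⟩ := hs
                have hu := hpos y k j
                have h1 : s * bk d = k + ((ω y).2 k).2 j := by
                  rw [hsk, div_mul_cancel₀ _ (bk_pos d).ne']
                have h2 : (K : ℝ) < s * bk d := by
                  rw [div_lt_iff₀ (bk_pos _)] at hsK
                  exact hsK
                have h3 : s * bk d < (K : ℝ) + 1 := by
                  have := lt_of_lt_of_le hst ht
                  rw [lt_div_iff₀ (bk_pos _)] at this
                  push_cast at this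
                  exact this
                have h4 : (K : ℝ) < (k : ℝ) + 1 := by linarith
                have h5 : (k : ℝ) < (K : ℝ) + 1 := by linarith
                have h4' : K < k + 1 := by exact_mod_cast h4
                have h5' : k < K + 1 := by exact_mod_cast h5
                have hkK : k = K := by omega
                subst hkK
                omega
              have hcard : (F.filter (· < s)).card < n := by
                rw [← hn]
                apply Finset.card_lt_card
                rw [Finset.ssubset_iff_of_subset]
                · refine ⟨s, ?_, ?_⟩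
                  · rw [Finset.mem_filter]; exact ⟨hsF, hst⟩
                  · rw [Finset.mem_filter]; exact fun h => lt_irrefl _ h.2
                · intro r hr
                  rw [Finset.mem_filter] at hr ⊢
                  exact ⟨hr.1, hr.2.trans hst⟩
              exact IH _ hcard s (hst.le.trans ht) rfl _ (hB y hy hblk i)
      exact key _ t ht rfl x hxB
  intro x t
  obtain ⟨K, hK⟩ := exists_nat_ge (bk d * t)
  exact hblock K t (by rw [le_div_iff₀ (bk_pos _)]; linarith) x

end Pool.Agent.H86.MDX
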