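import Pool.Agent.H86.MDX.All
import Pool.Agent.H86.MDX.Mono
import Pool.Agent.H86.MDX.Gap

/-!
# The fixation probability of majority dynamics on the `d`-regular tree jumps, for all odd `d ≥ 5`
-/

namespace Pool.Agent.H86.MDX

open MeasureTheory ProbabilityTheory Filter Topology

variable {d : ℕ}

/-- `v p ω x t`: the spin of the vertex `x` just before time `t` is `+`, for the dynamics started
with density `p` of `+` spins; measurable in the labelling `ω`, and obeying the rules of the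
majority dynamics for every good labelling (almost every labelling is good). -/
def Dynamics (v : ℝ → Om d Lab → V d → ℝ → Prop) : Prop :=
  (∀ p x t, MeasurableSet {ω | v p ω x t}) ∧ ∀ p ω, GoodW ω → IsSol p ω (v p ω)

/-- `θ_d(p)`: the probability that the spin of the root is finally `+` -/
noncomputable def theta (v : ℝ → Om d Lab → V d → ℝ → Prop) (p : ℝ) : ℝ :=
  (PP d (law d)).real (Plus (v p))

/-- `p_c(d)`: the supremum of the `p` in `[0, 1]` with `θ_d(p) = 0` -/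
noncomputable def pcrit (v : ℝ → Om d Lab → V d → ℝ → Prop) : ℝ :=
  sSup {p | p ∈ Set.Icc (0 : ℝ) 1 ∧ theta v p = 0}

theorem gap (hodd : Odd d) (hd : 5 ≤ d) {v : ℝ → Om d Lab → V d → ℝ → Prop} (hv : Dynamics v)
    (p : ℝ) : theta v p = 0 ∨ Real.exp (-(6 * (d : ℝ) / (d - 3))) ≤ theta v p :=
  taskGap hodd hd Lab (law d) (Plus (v p)) (plusMeas p (v p) (hv.1 p) (hv.2 p))
    (nine hodd p (v p) (hv.1 p) (hv.2 p))

theorem theta_mono {v : ℝ → Om d Lab → V d → ℝ → Prop} (hv : Dynamics v) : Monotone (theta v) := by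
  intro p p' hpp
  unfold theta
  refine ENNReal.toReal_mono (measure_ne_top _ _) (measure_mono_ae ?_)
  filter_upwards [goodAE] with ω hω
  rintro ⟨T, hT⟩
  exact ⟨T, fun t ht => sol_mono hpp ω (v p ω) (v p' ω) hω (hv.2 p ω hω) (hv.2 p' ω hω) _ _ (hT t ht)⟩

theorem theta_zero (hd : 0 < d) {v : ℝ → Om d Lab → V d → ℝ → Prop} (hv : Dynamics v) :
    theta v 0 = 0 := (ends hd (v 0)).1 (hv.2 0)

theorem theta_one (hd : 0 < d) {v : ℝ → Om d Lab → V d → ℝ → Prop} (hv : Dynamics v) :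
    theta v 1 = 1 := (ends hd (v 1)).2 (hv.2 1)

theorem theta_nonneg (v : ℝ → Om d Lab → V d → ℝ → Prop) (p : ℝ) : 0 ≤ theta v p :=
  measureReal_nonneg

theorem pcrit_mem (hd : 0 < d) {v : ℝ → Om d Lab → V d → ℝ → Prop} (hv : Dynamics v) :
    pcrit v ∈ Set.Icc (0 : ℝ) 1 := by
  have h0 : (0 : ℝ) ∈ {p | p ∈ Set.Icc (0 : ℝ) 1 ∧ theta v p = 0} :=
    ⟨⟨le_refl _, zero_le_one⟩, theta_zero hd hv⟩
  have hb : BddAbove {p | p ∈ Set.Icc (0 : ℝ) 1 ∧ theta v p = 0} := ⟨1, fun p hp => hp.1.2⟩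
  exact ⟨le_csSup hb h0, csSup_le ⟨0, h0⟩ fun p hp => hp.1.2⟩

theorem theta_below (hd : 0 < d) {v : ℝ → Om d Lab → V d → ℝ → Prop} (hv : Dynamics v) {p : ℝ}
    (hp : p < pcrit v) : theta v p = 0 := by
  have h0 : (0 : ℝ) ∈ {p | p ∈ Set.Icc (0 : ℝ) 1 ∧ theta v p = 0} :=
    ⟨⟨le_refl _, zero_le_one⟩, theta_zero hd hv⟩
  obtain ⟨s, hs, hps⟩ := exists_lt_of_lt_csSup ⟨0, h0⟩ hp
  exact le_antisymm (hs.2 ▸ theta_mono hv hps.le) (theta_nonneg v p)

theorem theta_above (hodd : Odd d) (hd : 5 ≤ d) {v : ℝ → Om d Lab → V d → ℝ → Prop}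
    (hv : Dynamics v) {p : ℝ} (hp : pcrit v < p) :
    Real.exp (-(6 * (d : ℝ) / (d - 3))) ≤ theta v p := by
  have hpc := pcrit_mem (by omega) hv
  have hb : BddAbove {p | p ∈ Set.Icc (0 : ℝ) 1 ∧ theta v p = 0} := ⟨1, fun p hp => hp.1.2⟩
  rcases gap hodd hd hv p with h | h
  · exfalso
    by_cases h1 : p ≤ 1
    · have : p ≤ pcrit v := le_csSup hb ⟨⟨hpc.1.trans hp.le, h1⟩, h⟩
      linarith
    · have h2 := theta_mono hv (not_le.1 h1).le
      rw [h, theta_one (by omega) hv] at h2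
      linarith
  · exact h

theorem not_cont (hodd : Odd d) (hd : 5 ≤ d) {v : ℝ → Om d Lab → V d → ℝ → Prop}
    (hv : Dynamics v) : ¬ ContinuousWithinAt (theta v) (Set.Icc 0 1) (pcrit v) := by
  intro hc
  have hpc := pcrit_mem (by omega) hv
  have hpos : 0 < Real.exp (-(6 * (d : ℝ) / (d - 3))) := Real.exp_pos _
  rcases gap hodd hd hv (pcrit v) with h | h
  · have h1 : pcrit v < 1 := by
      rcases hpc.2.eq_or_lt with h2 | h2
      · rw [h2, theta_one (by omega) hv] at h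
        norm_num at h
      · exact h2
    have hne := left_nhdsWithin_Ioo_neBot h1
    have h3 : Tendsto (theta v) (𝓝[Set.Ioo (pcrit v) 1] pcrit v) (𝓝 (theta v (pcrit v))) :=
      hc.mono fun x hx => ⟨hpc.1.trans hx.1.le, hx.2.le⟩
    have h4 : Real.exp (-(6 * (d : ℝ) / (d - 3))) ≤ theta v (pcrit v) := by
      refine ge_of_tendsto h3 ?_
      filter_upwards [self_mem_nhdsWithin] with x hx
      exact theta_above hodd hd hv hx.1
    linarith
  · have h1 : 0 < pcrit v := by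
      rcases hpc.1.eq_or_lt with h2 | h2
      · rw [← h2, theta_zero (by omega) hv] at h
        linarith
      · exact h2
    have hne := right_nhdsWithin_Ioo_neBot h1
    have h3 : Tendsto (theta v) (𝓝[Set.Ioo 0 (pcrit v)] pcrit v) (𝓝 (theta v (pcrit v))) :=
      hc.mono fun x hx => ⟨hx.1.le, hx.2.le.trans hpc.2⟩
    have h4 : theta v (pcrit v) ≤ 0 := by
      refine le_of_tendsto h3 ?_
      filter_upwards [self_mem_nhdsWithin] with x hx
      exact (theta_below (by omega) hv hx.2).le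
    linarith

end Pool.Agent.H86.MDX
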