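import Pool.Agent.H86.MDX.Stmts

set_option autoImplicit false

namespace Pool.Agent.H86.MDX

variable {d : ℕ}

theorem taskInvol_pre {d : ℕ} (i : Fin d) (w : List (Fin d)) (h : w.IsChain (· ≠ ·)) :
    preList i (preList i w) = w := by
  cases w with
  | nil => simp [preList]
  | cons j w =>
    by_cases hj : j = i
    · subst hj
      have e : preList j (j :: w) = w := by simp [preList]
      rw [e]
      cases w with
      | nil => simp [preList]
      | cons k w =>
        have hk : k ≠ j := by
          rw [List.isChain_cons_cons] at h
          exact h.1.symm
        simp [preList, hk]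
    · simp [preList, hj]

theorem taskInvol : TaskInvol := by
  intro d i x
  constructor
  · exact Subtype.ext (taskInvol_pre i x.1 x.2)
  · refine Subtype.ext ?_
    change (preList i (preList i x.1.reverse).reverse.reverse).reverse = x.1
    have h : x.1.reverse.IsChain (· ≠ ·) := by
      rw [List.isChain_reverse]
      exact x.2.imp fun _ _ h => Ne.symm h
    rw [List.reverse_reverse, taskInvol_pre i _ h, List.reverse_reverse]

end Pool.Agent.H86.MDX
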