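import Pool.Agent.H86.MDX.Ent
import Pool.Agent.H86.MDX.TaskInvol

/-!
# A finite quotient of the tree group

`Bl d N` is the ball of radius `N`; `sg0 i` is the involution of the ball which moves `x` to `L i x`
if this is in the ball and fixes `x` otherwise; `sw y` is the product of these involutions over the
word `y`. The words of length at most `N` have different images, as `sw y` moves the root to `y`.
-/

namespace Pool.Agent.H86.MDX

open Finset

variable {d N : ℕ}

/-- the ball of radius `N` -/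
abbrev Bl (d N : ℕ) : Type := {x : V d // len x ≤ N}

instance : Finite (Bl d N) := by
  have h1 : {l : List (Fin d) | l.length < N + 1}.Finite := List.finite_length_lt _ _
  have h2 : {y : V d | len y ≤ N}.Finite := by
    refine (h1.preimage Subtype.val_injective.injOn : (Subtype.val ⁻¹' _ : Set (V d)).Finite).subset ?_
    intro y hy
    exact Nat.lt_succ_of_le hy
  exact h2.to_subtype

noncomputable instance : Fintype (Bl d N) := Fintype.ofFinite _

/-- the finite group -/
abbrev Gp (d N : ℕ) : Type := Equiv.Perm (Bl d N)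

theorem LL (i : Fin d) (x : V d) : L i (L i x) = x := (taskInvol d i x).1

/-- the partial move -/
def mv (N : ℕ) (i : Fin d) (x : Bl d N) : Bl d N :=
  if h : len (L i x.1) ≤ N then ⟨L i x.1, h⟩ else x

theorem mv_invol (i : Fin d) : Function.Involutive (mv N i) := by
  intro x
  by_cases h : len (L i x.1) ≤ N
  · have h1 : mv N i x = ⟨L i x.1, h⟩ := dif_pos h
    rw [h1]
    have h2 : len (L i (⟨L i x.1, h⟩ : Bl d N).1) ≤ N := by
      show len (L i (L i x.1)) ≤ N
      rw [LL]
      exact x.2
    have h3 : mv N i ⟨L i x.1, h⟩ = ⟨L i (L i x.1), h2⟩ := dif_pos h2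
    rw [h3]
    exact Subtype.ext (LL i x.1)
  · have h1 : mv N i x = x := dif_neg h
    rw [h1, h1]

/-- the generators -/
def gn (N : ℕ) (i : Fin d) : Gp d N := (mv_invol (N := N) i).toPerm

theorem gn_mul (i : Fin d) : gn N i * gn N i = 1 := by
  ext x
  show ((mv N i (mv N i x)) : Bl d N).1 = x.1
  rw [mv_invol i x]

/-- the image of a word -/
def sw (N : ℕ) (y : V d) : Gp d N := (y.1.map (gn N)).prod

theorem sw_L (i : Fin d) (y : V d) : sw N (L i y) = gn N i * sw N y := by
  obtain ⟨l, hl⟩ := y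
  cases l with
  | nil =>
    show ([i].map (gn N)).prod = gn N i * (([] : List (Fin d)).map (gn N)).prod
    simp
  | cons j w =>
    by_cases hj : j = i
    · subst hj
      have h1 : (L j ⟨j :: w, hl⟩ : V d).1 = w := by
        show preList j (j :: w) = w
        simp [preList]
      show ((L j ⟨j :: w, hl⟩ : V d).1.map (gn N)).prod = gn N j * ((j :: w).map (gn N)).prod
      rw [h1, List.map_cons, List.prod_cons, ← mul_assoc, gn_mul, one_mul]
    · have h1 : (L i ⟨j :: w, hl⟩ : V d).1 = i :: j :: w := by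
        show preList i (j :: w) = i :: j :: w
        simp [preList, hj]
      show ((L i ⟨j :: w, hl⟩ : V d).1.map (gn N)).prod = gn N i * ((j :: w).map (gn N)).prod
      rw [h1, List.map_cons, List.prod_cons]

theorem sw_root : ∀ (w : List (Fin d)) (hc : w.IsChain (· ≠ ·)) (hl : w.length ≤ N),
    ((w.map (gn N)).prod : Gp d N) ⟨o d, Nat.zero_le _⟩ = ⟨⟨w, hc⟩, hl⟩ := by
  intro w
  induction w with
  | nil => intro hc hl; rfl
  | cons i w ih =>
    intro hc hl
    have hc' : w.IsChain (· ≠ ·) := hc.tail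
    have hl' : w.length ≤ N := by
      have : (i :: w).length = w.length + 1 := rfl
      omega
    rw [List.map_cons, List.prod_cons, Equiv.Perm.mul_apply, ih hc' hl']
    have h1 : L i (⟨w, hc'⟩ : V d) = ⟨i :: w, hc⟩ := by
      apply Subtype.ext
      show preList i w = i :: w
      cases w with
      | nil => rfl
      | cons j w =>
        have hij : i ≠ j := by
          rw [List.isChain_cons_cons] at hc
          exact hc.1
        simp [preList, Ne.symm hij]
    show mv N i ⟨⟨w, hc'⟩, hl'⟩ = _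
    have h2 : len (L i (⟨w, hc'⟩ : V d)) ≤ N := by
      rw [h1]
      exact hl
    have h3 : mv N i ⟨⟨w, hc'⟩, hl'⟩ = ⟨L i ⟨w, hc'⟩, h2⟩ := dif_pos h2
    rw [h3]
    exact Subtype.ext h1

theorem sw_inj {y y' : V d} (h : len y ≤ N) (h' : len y' ≤ N) (e : sw N y = sw N y') : y = y' := by
  have h1 := sw_root y.1 y.2 h
  have h2 := sw_root y'.1 y'.2 h'
  have h3 : (sw N y) ⟨o d, Nat.zero_le _⟩ = (sw N y') ⟨o d, Nat.zero_le _⟩ := by rw [e]
  have h4 : (⟨⟨y.1, y.2⟩, h⟩ : Bl d N) = ⟨⟨y'.1, y'.2⟩, h'⟩ := h1.symm.trans (h3.trans h2)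
  exact congrArg Subtype.val h4

theorem len_L (i : Fin d) (x : V d) :
    len (L i x) = len x + 1 ∨ (len x = len (L i x) + 1 ∧ ∃ w, x.1 = i :: w) := by
  obtain ⟨l, hl⟩ := x
  cases l with
  | nil => left; rfl
  | cons j w =>
    by_cases hj : j = i
    · right
      subst hj
      refine ⟨?_, w, rfl⟩
      show (j :: w).length = (preList j (j :: w)).length + 1
      simp [preList]
    · left
      show (preList i (j :: w)).length = (j :: w).length + 1
      simp [preList, hj]

section

variable {K : Type} {m : ℕ}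

/-- the labelling of the tree seen from `g` -/
def om (g : Gp d N) (Z : Gp d N → K) : Om d K := fun x => Z (g * sw N x)

theorem om_gn (g : Gp d N) (i : Fin d) (Z : Gp d N → K) : om (g * gn N i) Z = act i (om g Z) := by
  funext x
  show Z (g * gn N i * sw N x) = Z (g * sw N (L i x))
  rw [sw_L, mul_assoc]

/-- the indicator -/
noncomputable def XX (C : Set (Om d K)) (g : Gp d N) (Z : Gp d N → K) : ℝ := by
  classical exact if om g Z ∈ C then 1 else 0

theorem XX_zero_one (C : Set (Om d K)) (g : Gp d N) (Z : Gp d N → K) : XX C g Z = 0 ∨ XX C g Z = 1 := by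
  unfold XX
  split_ifs
  · right; rfl
  · left; rfl

theorem XX_noDep {C : Set (Om d K)}
    (hC : ∀ ω ω' : Om d K, (∀ x, len x ≤ m → ω x = ω' x) → (ω ∈ C ↔ ω' ∈ C)) (g s : Gp d N)
    (h : ∀ x : V d, len x ≤ m → g * sw N x ≠ s) : NoDep s (XX C g) := by
  intro z e
  unfold XX
  have h1 : om g (Function.update z s e) ∈ C ↔ om g z ∈ C := by
    apply hC
    intro x hx
    show Function.update z s e (g * sw N x) = z (g * sw N x)
    rw [Function.update_of_ne (h x hx)]
  by_cases h2 : om g z ∈ C
  · rw [if_pos (h1.2 h2), if_pos h2]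
  · rw [if_neg (fun h3 => h2 (h1.1 h3)), if_neg h2]

theorem min_sum {C : Set (Om d K)}
    (hC : ∀ ω ω' : Om d K, (∀ x, len x ≤ m → ω x = ω' x) → (ω ∈ C ↔ ω' ∈ C)) (s : Gp d (m + 1))
    (a : Gp d (m + 1) → ℝ) (ha : ∀ g, 0 ≤ a g) (ha0 : ∀ g, NoDep s (XX C g) → a g = 0) :
    ∑ g, ∑ i, min (a g) (a (g * gn (m + 1) i)) ≤ 2 * ∑ g, a g := by
  classical
  have hex : ∀ g, ∃ x : V d, a g ≠ 0 → len x ≤ m ∧ g * sw (m + 1) x = s := by
    intro g
    by_cases h : a g = 0
    · exact ⟨o d, fun h' => absurd h h'⟩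
    · by_contra hcon
      push Not at hcon
      apply h
      apply ha0
      apply XX_noDep hC
      intro x hx
      exact (hcon x).2 hx
  choose xx hxx using hex
  set c : Gp d (m + 1) → Fin d → ℝ := fun g i => if len (L i (xx g)) < len (xx g) then a g else 0
    with hc
  have hc0 : ∀ g i, 0 ≤ c g i := by
    intro g i
    simp only [hc]
    split_ifs
    · exact ha g
    · exact le_refl _
  have h1 : ∀ g i, min (a g) (a (g * gn (m + 1) i)) ≤ c g i + c (g * gn (m + 1) i) i := by
    intro g i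
    by_cases h0 : a g = 0
    · exact (min_le_left _ _).trans (by rw [h0]; exact add_nonneg (hc0 _ _) (hc0 _ _))
    by_cases h0' : a (g * gn (m + 1) i) = 0
    · exact (min_le_right _ _).trans (by rw [h0']; exact add_nonneg (hc0 _ _) (hc0 _ _))
    obtain ⟨h2, h3⟩ := hxx g h0
    obtain ⟨h4, h5⟩ := hxx _ h0'
    have h6 : sw (m + 1) (xx g) = sw (m + 1) (L i (xx (g * gn (m + 1) i))) := by
      rw [sw_L]
      apply mul_left_cancel (a := g)
      rw [h3, ← mul_assoc, h5]
    have h7 : xx g = L i (xx (g * gn (m + 1) i)) := by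
      refine sw_inj (by omega) ?_ h6
      rcases len_L i (xx (g * gn (m + 1) i)) with h8 | h8 <;> omega
    have h8 : L i (xx g) = xx (g * gn (m + 1) i) := by
      rw [h7, LL]
    by_cases h9 : len (L i (xx g)) < len (xx g)
    · have h10 : c g i = a g := if_pos h9
      have h11 := min_le_left (a g) (a (g * gn (m + 1) i))
      linarith [hc0 (g * gn (m + 1) i) i]
    · have h12 : len (L i (xx (g * gn (m + 1) i))) < len (xx (g * gn (m + 1) i)) := by
        rw [← h7, ← h8]
        rcases len_L i (xx g) with h8 | h8 <;> omega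
      have h10 : c (g * gn (m + 1) i) i = a (g * gn (m + 1) i) := if_pos h12
      have h11 := min_le_right (a g) (a (g * gn (m + 1) i))
      linarith [hc0 g i]
  have h2 : ∀ g, ∑ i, c g i ≤ a g := by
    intro g
    simp only [hc]
    rw [← Finset.sum_filter, Finset.sum_const, nsmul_eq_mul]
    have h3 : (Finset.univ.filter fun i => len (L i (xx g)) < len (xx g)).card ≤ 1 := by
      rw [Finset.card_le_one]
      intro i hi j hj
      rw [Finset.mem_filter] at hi hj
      rcases len_L i (xx g) with h4 | ⟨_, w, hw⟩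
      · omega
      rcases len_L j (xx g) with h4 | ⟨_, w', hw'⟩
      · omega
      rw [hw] at hw'
      exact (List.cons.inj hw').1
    have h4 : ((Finset.univ.filter fun i => len (L i (xx g)) < len (xx g)).card : ℝ) ≤ 1 := by
      exact_mod_cast h3
    nlinarith [ha g]
  have h3 : ∑ g, ∑ i, c (g * gn (m + 1) i) i = ∑ g, ∑ i, c g i := by
    rw [Finset.sum_comm, Finset.sum_comm (f := fun g i => c g i)]
    refine Finset.sum_congr rfl fun i _ => ?_
    exact Fintype.sum_equiv (Equiv.mulRight (gn (m + 1) i)) _ _ fun g => rfl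
  calc ∑ g, ∑ i, min (a g) (a (g * gn (m + 1) i))
      ≤ ∑ g, ∑ i, (c g i + c (g * gn (m + 1) i) i) :=
        Finset.sum_le_sum fun g _ => Finset.sum_le_sum fun i _ => h1 g i
    _ = ∑ g, ∑ i, c g i + ∑ g, ∑ i, c g i := by
        simp only [Finset.sum_add_distrib]
        rw [h3]
    _ ≤ ∑ g, a g + ∑ g, a g :=
        add_le_add (Finset.sum_le_sum fun g _ => h2 g) (Finset.sum_le_sum fun g _ => h2 g)
    _ = 2 * ∑ g, a g := by ring

/-- the entropy inequality on the finite group -/
theorem group_ineq [Fintype K] {w : K → ℝ} (hw0 : ∀ e, 0 ≤ w e) (hw : ∑ e, w e = 1)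
    {C : Set (Om d K)}
    (hC : ∀ ω ω' : Om d K, (∀ x, len x ≤ m → ω x = ω' x) → (ω ∈ C ↔ ω' ∈ C))
    {θ : ℝ} {q : Fin d → ℝ} (hθ : ∀ g : Gp d (m + 1), EE w (XX C g) = θ)
    (hq : ∀ (g : Gp d (m + 1)) (i : Fin d), EE w (fun z => XX C g z * XX C (g * gn (m + 1) i) z) = q i) :
    2 * ((d : ℝ) - 1) * (Real.negMulLog θ + Real.negMulLog (1 - θ)) ≤
    ∑ i, (Real.negMulLog (q i) + 2 * Real.negMulLog (θ - q i) +
      Real.negMulLog (1 - 2 * θ + q i)) := by
  classical
  have h := entropy_ineq (d := d) hw0 hw (fun i (g : Gp d (m + 1)) => g * gn (m + 1) i)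
    (fun i g => by rw [mul_assoc, gn_mul, mul_one]) (XX C) (XX_zero_one C)
    (fun s a ha ha0 => min_sum hC s a ha ha0)
  simp only [hθ, hq] at h
  rw [Finset.sum_const, Finset.sum_const] at h
  simp only [nsmul_eq_mul] at h
  have hpos : (0 : ℝ) < ((Finset.univ : Finset (Gp d (m + 1))).card : ℝ) := by
    have : 0 < (Finset.univ : Finset (Gp d (m + 1))).card :=
      Finset.card_pos.2 ⟨1, Finset.mem_univ _⟩
    exact_mod_cast this
  have h2 : ∑ i, (Real.negMulLog (q i) + Real.negMulLog (θ - q i) +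
      (Real.negMulLog (θ - q i) + Real.negMulLog (1 - θ - θ + q i))) =
      ∑ i, (Real.negMulLog (q i) + 2 * Real.negMulLog (θ - q i) +
      Real.negMulLog (1 - 2 * θ + q i)) := by
    refine Finset.sum_congr rfl fun i _ => ?_
    rw [show 1 - θ - θ + q i = 1 - 2 * θ + q i by ring]
    ring
  rw [h2] at h
  refine le_of_mul_le_mul_left ?_ hpos
  linarith

end

end Pool.Agent.H86.MDX
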