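import Pool.Agent.H86.MDX.Grp
import Pool.Agent.H86.MDX.TaskPres

/-!
# The entropy inequality for measurable sets of labellings of the tree
-/

namespace Pool.Agent.H86.MDX

open MeasureTheory ProbabilityTheory Filter Topology Finset

variable {d N m : ℕ}

section Discrete

variable {K : Type} [Fintype K] [MeasurableSpace K] [MeasurableSingletonClass K]

/-- the mean is an integral for the product law -/
theorem EE_eq {G : Type} [Fintype G] [DecidableEq G] (ν : Measure K) [IsProbabilityMeasure ν]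
    (f : (G → K) → ℝ) :
    EE (fun e => ν.real {e}) f = ∫ z, f z ∂(Measure.infinitePi (fun _ : G => ν)) := by
  rw [Measure.infinitePi_eq_pi, integral_fintype (Integrable.of_finite)]
  unfold EE
  refine Finset.sum_congr rfl fun z _ => ?_
  rw [smul_eq_mul]
  congr 1
  rw [Measure.real, Measure.pi_singleton, ENNReal.toReal_prod]
  rfl

theorem w_sum (ν : Measure K) [IsProbabilityMeasure ν] : ∑ e, ν.real {e} = 1 := by
  have h := measureReal_biUnion_finset (μ := ν) (s := (Finset.univ : Finset K)) (f := fun e => {e})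
    (fun a _ b _ hab => Set.disjoint_singleton.2 hab) (fun e _ => measurableSet_singleton e)
  have h2 : (⋃ b ∈ (Finset.univ : Finset K), ({b} : Set K)) = Set.univ := by
    ext
    simp
  rw [← h, h2]
  exact probReal_univ

/-- dependence on the labels in the ball of radius `m` -/
def BDep {K : Type} (m : ℕ) (C : Set (Om d K)) : Prop :=
  ∀ ω ω' : Om d K, (∀ x, len x ≤ m → ω x = ω' x) → (ω ∈ C ↔ ω' ∈ C)

/-- extension of a labelling of the ball by a constant -/
def bext {K : Type} (k0 : K) (y : Bl d N → K) : Om d K :=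
  fun x => if h : len x ≤ N then y ⟨x, h⟩ else k0

theorem bext_iff {C : Set (Om d K)} (hC : BDep N C) (k0 : K) (ω : Om d K) :
    ω ∈ C ↔ bext k0 (fun x : Bl d N => ω x.1) ∈ C := by
  apply hC
  intro x hx
  unfold bext
  rw [dif_pos hx]

theorem bdep_meas {C : Set (Om d K)} (hC : BDep N C) (k0 : K) : MeasurableSet C := by
  have h : C = (fun (ω : Om d K) (x : Bl d N) => ω x.1) ⁻¹' {y | bext k0 y ∈ C} := by
    ext ω
    exact bext_iff hC k0 ω
  rw [h]
  exact (measurable_pi_lambda _ fun x => measurable_pi_apply _) (Set.toFinite _).measurableSet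

theorem law_match (ν : Measure K) [IsProbabilityMeasure ν] {C : Set (Om d K)} (hC : BDep N C)
    (g : Gp d N) :
    EE (fun e => ν.real {e}) (XX C g) = (PP d ν).real C := by
  classical
  obtain ⟨k0⟩ : Nonempty K := nonempty_of_isProbabilityMeasure ν
  rw [EE_eq]
  have h1 : (XX C g : (Gp d N → K) → ℝ) = Set.indicator {Z | om g Z ∈ C} 1 := by
    funext Z
    unfold XX
    by_cases h : om g Z ∈ C
    · rw [if_pos h, Set.indicator_of_mem (by exact h)]
      rfl
    · rw [if_neg h, Set.indicator_of_notMem (by exact h)]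
  have hm1 : MeasurableSet {Z : Gp d N → K | om g Z ∈ C} := (Set.toFinite _).measurableSet
  rw [h1, integral_indicator_one hm1]
  set C' : Set (Bl d N → K) := {y | bext k0 y ∈ C} with hC'
  have hm : MeasurableSet C' := (Set.toFinite _).measurableSet
  have h2 := Measure.map_infinitePi_infinitePi_of_inj (P := fun _ : V d => ν)
    (f := fun x : Bl d N => x.1) Subtype.val_injective
  have hinj : Function.Injective (fun x : Bl d N => g * sw N x.1) := by
    intro x y hxy
    exact Subtype.ext (sw_inj x.2 y.2 (mul_left_cancel hxy))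
  have h3 := Measure.map_infinitePi_infinitePi_of_inj (P := fun _ : Gp d N => ν)
    (f := fun x : Bl d N => g * sw N x.1) hinj
  have h4 : (Measure.infinitePi fun _ : Gp d N => ν) {Z | om g Z ∈ C} =
      (Measure.infinitePi fun _ : Bl d N => ν) C' := by
    rw [← h3, Measure.map_apply (measurable_pi_lambda _ fun x => measurable_pi_apply _) hm]
    congr 1
    ext Z
    exact bext_iff hC k0 (om g Z)
  have h5 : PP d ν C = (Measure.infinitePi fun _ : Bl d N => ν) C' := by
    rw [← h2, Measure.map_apply (measurable_pi_lambda _ fun x => measurable_pi_apply _) hm]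
    unfold PP
    congr 1
    ext ω
    exact bext_iff hC k0 ω
  rw [Measure.real, Measure.real, h4, h5]

theorem bdep_act {C : Set (Om d K)} (hC : BDep m C) (i : Fin d) :
    BDep (m + 1) (C ∩ act i ⁻¹' C) := by
  intro ω ω' h
  have h1 : ω ∈ C ↔ ω' ∈ C := hC _ _ fun x hx => h x (by omega)
  have h2 : act i ω ∈ C ↔ act i ω' ∈ C := by
    apply hC
    intro x hx
    apply h
    rcases len_L i x with h3 | h3 <;> omega
  rw [Set.mem_inter_iff, Set.mem_inter_iff, Set.mem_preimage, Set.mem_preimage, h1, h2]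

/-- the entropy inequality for cylinder sets -/
theorem cyl_ineq (ν : Measure K) [IsProbabilityMeasure ν] {C : Set (Om d K)} (hC : BDep m C) :
    2 * ((d : ℝ) - 1) * (Real.negMulLog ((PP d ν).real C) +
      Real.negMulLog (1 - (PP d ν).real C)) ≤
    ∑ i, (Real.negMulLog ((PP d ν).real (C ∩ act i ⁻¹' C)) +
      2 * Real.negMulLog ((PP d ν).real C - (PP d ν).real (C ∩ act i ⁻¹' C)) +
      Real.negMulLog (1 - 2 * (PP d ν).real C + (PP d ν).real (C ∩ act i ⁻¹' C))) := by
  have hC1 : BDep (m + 1) C := fun ω ω' h => hC _ _ fun x hx => h x (by omega)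
  refine group_ineq (m := m) (w := fun e => ν.real {e}) (fun e => measureReal_nonneg) (w_sum ν) hC
    (fun g => law_match ν hC1 g) (fun g i => ?_)
  rw [← law_match ν (bdep_act hC i) g]
  congr 1
  funext Z
  unfold XX
  rw [om_gn]
  by_cases h1 : om g Z ∈ C
  · by_cases h2 : act i (om g Z) ∈ C
    · rw [if_pos h1, if_pos h2, if_pos (Set.mem_inter h1 h2), mul_one]
    · rw [if_pos h1, if_neg h2, if_neg (fun h : om g Z ∈ C ∩ act i ⁻¹' C => h2 h.2), mul_zero]
  · rw [if_neg h1, if_neg (fun h : om g Z ∈ C ∩ act i ⁻¹' C => h1 h.1), zero_mul]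

end Discrete

section General

variable {E : Type} [MeasurableSpace E]

/-- sets which depend on finitely many labels, and only through a finite partition of the labels -/
def Gd (S : Set (Om d E)) : Prop :=
  ∃ (K : Type) (_ : Fintype K) (_ : MeasurableSpace K) (_ : MeasurableSingletonClass K)
    (c : E → K) (m : ℕ) (C : Set (Om d K)), Measurable c ∧ BDep m C ∧
    S = {ω | (fun x => c (ω x)) ∈ C}

theorem gd_op (f : Prop → Prop → Prop) {S T : Set (Om d E)} (hS : Gd S) (hT : Gd T) :
    Gd {ω | f (ω ∈ S) (ω ∈ T)} := by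
  obtain ⟨K, _, _, _, c, m, C, hc, hC, rfl⟩ := hS
  obtain ⟨K', _, _, _, c', m', C', hc', hC', rfl⟩ := hT
  refine ⟨K × K', inferInstance, inferInstance, inferInstance, fun e => (c e, c' e), max m m',
    {ω | f ((fun x => (ω x).1) ∈ C) ((fun x => (ω x).2) ∈ C')}, hc.prodMk hc', ?_, rfl⟩
  intro ω ω' h
  have h1 : (fun x => (ω x).1) ∈ C ↔ (fun x => (ω' x).1) ∈ C :=
    hC _ _ fun x hx => by rw [h x (hx.trans (le_max_left _ _))]
  have h2 : (fun x => (ω x).2) ∈ C' ↔ (fun x => (ω' x).2) ∈ C' :=
    hC' _ _ fun x hx => by rw [h x (hx.trans (le_max_right _ _))]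
  show f _ _ ↔ f _ _
  rw [h1, h2]

theorem gd_empty : Gd (∅ : Set (Om d E)) :=
  ⟨Unit, inferInstance, inferInstance, inferInstance, fun _ => (), 0, ∅, measurable_const,
    fun _ _ _ => Iff.rfl, by ext; simp⟩

theorem gd_univ : Gd (Set.univ : Set (Om d E)) :=
  ⟨Unit, inferInstance, inferInstance, inferInstance, fun _ => (), 0, Set.univ, measurable_const,
    fun _ _ _ => Iff.rfl, by ext; simp⟩

theorem gd_meas {S : Set (Om d E)} (hS : Gd S) : MeasurableSet S := by
  obtain ⟨K, _, _, _, c, m, C, hc, hC, rfl⟩ := hS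
  rcases isEmpty_or_nonempty K with hK | ⟨⟨k0⟩⟩
  · have : {ω : Om d E | (fun x => c (ω x)) ∈ C} = ∅ := by
      ext ω
      exact (hK.false (c (ω (o d)))).elim
    rw [this]
    exact MeasurableSet.empty
  · exact (measurable_pi_lambda (fun (ω : Om d E) (x : V d) => c (ω x)) fun x =>
      hc.comp (measurable_pi_apply x)) (bdep_meas hC k0)

theorem gd_gen : (inferInstance : MeasurableSpace (Om d E)) =
    MeasurableSpace.generateFrom {S : Set (Om d E) | Gd S} := by
  apply le_antisymm
  · refine iSup_le fun x => ?_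
    rintro _ ⟨s, hs, rfl⟩
    apply MeasurableSpace.measurableSet_generateFrom
    classical
    refine ⟨Bool, inferInstance, inferInstance, inferInstance, fun e => decide (e ∈ s), len x,
      {ω | ω x = true}, ?_, ?_, ?_⟩
    · refine measurable_to_bool ?_
      have : (fun e => decide (e ∈ s)) ⁻¹' {true} = s := by ext e; simp
      rw [this]
      exact hs
    · intro ω ω' h
      show ω x = true ↔ ω' x = true
      rw [h x le_rfl]
    · ext ω
      simp
  · apply MeasurableSpace.generateFrom_le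
    intro S hS
    exact gd_meas hS

theorem gd_approx (ν : Measure E) [IsProbabilityMeasure ν] {A : Set (Om d E)}
    (hA : MeasurableSet A) {ε : ℝ} (hε : 0 < ε) :
    ∃ A' : Set (Om d E), Gd A' ∧ (PP d ν).real (symmDiff A' A) < ε := by
  have hC : IsSetRing {S : Set (Om d E) | Gd S} :=
    { empty_mem := gd_empty
      union_mem := fun s t hs ht => gd_op (fun p q => p ∨ q) hs ht
      sdiff_mem := fun s t hs ht => gd_op (fun p q => p ∧ ¬ q) hs ht }
  have hD : ∃ D : Set (Set (Om d E)), D.Countable ∧ D ⊆ {S : Set (Om d E) | Gd S} ∧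
      (PP d ν) (⋃₀ D)ᶜ = 0 :=
    ⟨{Set.univ}, Set.countable_singleton _, by
      rw [Set.singleton_subset_iff]; exact gd_univ, by simp⟩
  obtain ⟨t, ht, hlt⟩ := exists_measure_symmDiff_lt_of_generateFrom_isSetRing (μ := PP d ν) hC hD
    gd_gen hA (ε := ENNReal.ofReal ε) (by simpa using hε)
  refine ⟨t, ht, ?_⟩
  rw [Measure.real]
  rw [← ENNReal.ofReal_lt_ofReal_iff hε, ENNReal.ofReal_toReal (measure_ne_top _ _)]
  exact hlt

/-- the entropy inequality for the approximating sets -/
theorem gd_ineq (ν : Measure E) [IsProbabilityMeasure ν] {A : Set (Om d E)} (hA : Gd A) :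
    2 * ((d : ℝ) - 1) * (Real.negMulLog ((PP d ν).real A) +
      Real.negMulLog (1 - (PP d ν).real A)) ≤
    ∑ i, (Real.negMulLog ((PP d ν).real (A ∩ act i ⁻¹' A)) +
      2 * Real.negMulLog ((PP d ν).real A - (PP d ν).real (A ∩ act i ⁻¹' A)) +
      Real.negMulLog (1 - 2 * (PP d ν).real A + (PP d ν).real (A ∩ act i ⁻¹' A))) := by
  obtain ⟨K, _, _, _, c, m, C, hc, hC, rfl⟩ := hA
  obtain ⟨e0⟩ : Nonempty E := nonempty_of_isProbabilityMeasure ν
  have hp : IsProbabilityMeasure (ν.map c) := Measure.isProbabilityMeasure_map hc.aemeasurable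
  have hmp : MeasurePreserving (fun (ω : Om d E) (x : V d) => c (ω x)) (PP d ν) (PP d (ν.map c)) :=
    ⟨measurable_pi_lambda _ fun x => hc.comp (measurable_pi_apply x),
      Measure.infinitePi_map_pi (μ := fun _ : V d => ν) (f := fun _ => c) fun _ => hc⟩
  have h := cyl_ineq (ν.map c) hC
  have e1 : (PP d (ν.map c)).real C = (PP d ν).real {ω | (fun x => c (ω x)) ∈ C} := by
    rw [Measure.real, Measure.real,
      ← hmp.measure_preimage (bdep_meas hC (c e0)).nullMeasurableSet]
    rfl
  have e2 : ∀ i, (PP d (ν.map c)).real (C ∩ act i ⁻¹' C) =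
      (PP d ν).real ({ω | (fun x => c (ω x)) ∈ C} ∩ act i ⁻¹' {ω | (fun x => c (ω x)) ∈ C}) := by
    intro i
    rw [Measure.real, Measure.real,
      ← hmp.measure_preimage (bdep_meas (bdep_act hC i) (c e0)).nullMeasurableSet]
    rfl
  rw [e1] at h
  simp only [e2] at h
  exact h

/-- **The entropy inequality.** For every measurable set `A` of labellings, with `θ = P(A)` and
`q_i = P(A ∩ act i ⁻¹ A)`. -/
theorem main_ineq (ν : Measure E) [IsProbabilityMeasure ν] {A : Set (Om d E)}
    (hA : MeasurableSet A) :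
    2 * ((d : ℝ) - 1) * (Real.negMulLog ((PP d ν).real A) +
      Real.negMulLog (1 - (PP d ν).real A)) ≤
    ∑ i, (Real.negMulLog ((PP d ν).real (A ∩ act i ⁻¹' A)) +
      2 * Real.negMulLog ((PP d ν).real A - (PP d ν).real (A ∩ act i ⁻¹' A)) +
      Real.negMulLog (1 - 2 * (PP d ν).real A + (PP d ν).real (A ∩ act i ⁻¹' A))) := by
  have hε : ∀ n : ℕ, (0 : ℝ) < 1 / ((n : ℝ) + 1) := fun n => by positivity
  choose A' hA' hlt using fun n : ℕ => gd_approx ν hA (hε n)
  have hz : Tendsto (fun n : ℕ => 1 / ((n : ℝ) + 1)) atTop (𝓝 0) :=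
    tendsto_one_div_add_atTop_nhds_zero_nat
  have hp : ∀ i : Fin d, MeasurePreserving (act (E := E) i) (PP d ν) (PP d ν) := taskPres d E ν
  have h1 : Tendsto (fun n => (PP d ν).real (A' n)) atTop (𝓝 ((PP d ν).real A)) := by
    rw [tendsto_iff_dist_tendsto_zero]
    refine squeeze_zero (fun n => dist_nonneg) (fun n => ?_) hz
    refine le_trans ?_ (hlt n).le
    rw [Real.dist_eq]
    exact abs_measureReal_sub_le_measureReal_symmDiff (gd_meas (hA' n)).nullMeasurableSet
      hA.nullMeasurableSet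
  have h2 : ∀ i : Fin d, Tendsto (fun n => (PP d ν).real (A' n ∩ act i ⁻¹' A' n)) atTop
      (𝓝 ((PP d ν).real (A ∩ act i ⁻¹' A))) := by
    intro i
    rw [tendsto_iff_dist_tendsto_zero]
    have hz2 : Tendsto (fun n : ℕ => 1 / ((n : ℝ) + 1) + 1 / ((n : ℝ) + 1)) atTop (𝓝 0) := by
      have := hz.add hz
      rwa [add_zero] at this
    refine squeeze_zero (fun n => dist_nonneg) (fun n => ?_) hz2
    have hmA := gd_meas (hA' n)
    rw [Real.dist_eq]
    refine (abs_measureReal_sub_le_measureReal_symmDiff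
      (hmA.inter ((hp i).measurable hmA)).nullMeasurableSet
      (hA.inter ((hp i).measurable hA)).nullMeasurableSet).trans ?_
    have h3 : symmDiff (A' n ∩ act i ⁻¹' A' n) (A ∩ act i ⁻¹' A) ⊆
        symmDiff (A' n) A ∪ act i ⁻¹' (symmDiff (A' n) A) := by
      intro ω hω
      simp only [Set.mem_symmDiff, Set.mem_inter_iff, Set.mem_preimage, Set.mem_union] at hω ⊢
      tauto
    refine (measureReal_mono h3).trans ((measureReal_union_le _ _).trans ?_)
    have hmS : MeasurableSet (symmDiff (A' n) A) := hmA.symmDiff hA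
    have h4 : (PP d ν).real (act i ⁻¹' (symmDiff (A' n) A)) = (PP d ν).real (symmDiff (A' n) A) := by
      rw [Measure.real, Measure.real, (hp i).measure_preimage hmS.nullMeasurableSet]
    rw [h4]
    linarith [hlt n]
  have hη := Real.continuous_negMulLog
  have hL : Tendsto (fun n => 2 * ((d : ℝ) - 1) * (Real.negMulLog ((PP d ν).real (A' n)) +
      Real.negMulLog (1 - (PP d ν).real (A' n)))) atTop
      (𝓝 (2 * ((d : ℝ) - 1) * (Real.negMulLog ((PP d ν).real A) +
      Real.negMulLog (1 - (PP d ν).real A)))) := by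
    refine Tendsto.const_mul _ (Tendsto.add ?_ ?_)
    · exact (hη.tendsto _).comp h1
    · exact (hη.tendsto _).comp (tendsto_const_nhds.sub h1)
  have hR : Tendsto (fun n => ∑ i, (Real.negMulLog ((PP d ν).real (A' n ∩ act i ⁻¹' A' n)) +
      2 * Real.negMulLog ((PP d ν).real (A' n) - (PP d ν).real (A' n ∩ act i ⁻¹' A' n)) +
      Real.negMulLog (1 - 2 * (PP d ν).real (A' n) + (PP d ν).real (A' n ∩ act i ⁻¹' A' n)))) atTop
      (𝓝 (∑ i, (Real.negMulLog ((PP d ν).real (A ∩ act i ⁻¹' A)) +
      2 * Real.negMulLog ((PP d ν).real A - (PP d ν).real (A ∩ act i ⁻¹' A)) +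
      Real.negMulLog (1 - 2 * (PP d ν).real A + (PP d ν).real (A ∩ act i ⁻¹' A))))) := by
    refine tendsto_finsetSum _ fun i _ => Tendsto.add (Tendsto.add ?_ (Tendsto.const_mul _ ?_)) ?_
    · exact (hη.tendsto _).comp (h2 i)
    · exact (hη.tendsto _).comp (h1.sub (h2 i))
    · exact (hη.tendsto _).comp ((tendsto_const_nhds.sub (h1.const_mul 2)).add (h2 i))
  exact le_of_tendsto_of_tendsto' hL hR fun n => gd_ineq ν (hA' n)

end General

end Pool.Agent.H86.MDX
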